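import Pool.Agent.Helper35.DC.Config

/-!
# Acyclicity of the complex of fractional rooted partitions
-/

namespace Pool.Agent.Helper35.DC

open Finsupp

variable {V : Type} [DecidableEq V] {adj : V → V → Prop} {k M : ℕ}

lemma acyc_pin {W : Finset V} {att : V → ℕ → Prop} {S : Finset V} {A : V → ℕ → Prop} {b : V}
    {j : ℕ} (hS : S ⊆ W) (i : ℕ) (h : Acyc (KC adj k M (W.erase b) att (S.erase b) A) j) :
    Acyc (fun l => KC adj k M (W.erase b) att (S.erase b) A l ∧ ∀ g ∈ l, g b = Sol M i) j := by
  refine h.retract (fun l hl => hl.1) (fun g => Function.update g b (Sol M i)) ?_ ?_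
  · intro l hl
    refine ⟨KC_update (Finset.erase_subset_erase b hS) (Finset.notMem_erase b W)
      (fun _ => Sol M i) hl, ?_⟩
    intro g hg
    obtain ⟨g0, hg0, rfl⟩ := List.mem_map.mp hg
    exact Function.update_self _ _ _
  · intro l hl
    conv_rhs => rw [← List.map_id l]
    refine List.map_congr_left fun g hg => ?_
    rw [id, ← hl.2 g hg, Function.update_eq_self]

lemma P0_and_P1 {W : Finset V} {att : V → ℕ → Prop} {S : Finset V} {A : V → ℕ → Prop} {b : V}
    {i : ℕ} (hik : i < k) (hAi : A b i) (l : List (V → ℕ → ℕ)) :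
    P2 adj k M W att S A b i l ↔
      (P0 adj k M W att S A b l ∧ P1 adj k M W att S A b i l) := by
  constructor
  · rintro ⟨h1, h2⟩
    refine ⟨⟨h1, fun g hg => ?_, fun g hg g' hg' j => ?_⟩, ⟨?_, h2⟩⟩
    · rw [h2 g hg]
      exact ⟨Sol_good hik, fun j hj => by rw [Sol_supp hj]; exact hAi⟩
    · rw [h2 g hg, h2 g' hg']; omega
    · exact h1.mono_att (fun u i' h => Or.inl h)
  · rintro ⟨⟨h1, -, -⟩, ⟨-, h2⟩⟩
    exact ⟨h1, h2⟩

lemma acyc_restricted (hM : 0 < M) {W : Finset V} {att : V → ℕ → Prop} {S : Finset V}
    {A : V → ℕ → Prop} {j : ℕ} (hatt : ∀ u i, att u i → i < k) (hSW : S ⊆ W)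
    (hA : ∀ b ∈ S, ∀ i, A b i → att b i) {b : V} (hb : b ∈ S) (hne : ∃ i, A b i)
    (ih1 : ∀ i, A b i → Acyc (KC adj k M (W.erase b) (attb adj att b i) (S.erase b) A) j)
    (ih2 : Acyc (KC adj k M (W.erase b) att (S.erase b) A) (j - 1)) :
    Acyc (KC adj k M W att S A) j := by
  classical
  have hlt : ∀ i, A b i → i < k := fun i hi => hatt b i (hA b hb i hi)
  set i1 := Nat.find hne with hi1def
  have hi1 : A b i1 := Nat.find_spec hne
  have hmin : ∀ i, A b i → i1 ≤ i := fun i hi => Nat.find_min' hne hi
  have hP2 : ∀ i, Acyc (P2 adj k M W att S A b i) (j - 1) := fun i => acyc_pin hSW i ih2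
  have hP1 : ∀ i, A b i → Acyc (P1 adj k M W att S A b i) j := by
    intro i hi
    exact acyc_pin (att := attb adj att b i) hSW i (ih1 i hi)
  have h01 : Acyc (fun l => P0 adj k M W att S A b l ∨ P1 adj k M W att S A b i1 l) j := by
    refine Acyc.union_def (isCx_P0 _ _ _ _ _) (isCx_P1 _ _ _ _ _ _) (hP1 i1 hi1)
      ((hP2 i1).congr fun l => P0_and_P1 (hlt i1 hi1) hi1 l) ?_
    intro n _ z hz hbd
    obtain ⟨z', hz', h, hh, e⟩ := leaf_deform hSW hi1 (hlt i1 hi1) hmin n z hz hbd
    exact ⟨z', On_mono (fun l hl => (P0_and_P1 (hlt i1 hi1) hi1 l).mp hl) n hz', h, hh, e⟩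
  have hU : ∀ F : Finset ℕ, (∀ i ∈ F, A b i) → Acyc (fun l => P0 adj k M W att S A b l ∨
      ∃ i ∈ insert i1 F, P1 adj k M W att S A b i l) j := by
    intro F
    induction F using Finset.induction_on with
    | empty =>
      intro _
      refine h01.congr fun l => ?_
      simp
    | insert i F hi ih =>
      intro hF
      have ih' := ih fun i' hi' => hF i' (Finset.mem_insert_of_mem hi')
      by_cases hii : i = i1
      · subst hii
        simpa using ih'
      · have hAi : A b i := hF i (Finset.mem_insert_self _ _)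
        have hcx : IsCx (fun l => P0 adj k M W att S A b l ∨
            ∃ i ∈ insert i1 F, P1 adj k M W att S A b i l) := by
          rintro l l' hl (h | ⟨i', hi', h⟩)
          · exact Or.inl (isCx_P0 _ _ _ _ _ l l' hl h)
          · exact Or.inr ⟨i', hi', isCx_P1 _ _ _ _ _ _ l l' hl h⟩
        refine (Acyc.union hcx (isCx_P1 _ _ _ _ _ _) ih' (hP1 i hAi)
          ((hP2 i).congr fun l => ?_)).congr fun l => ?_
        · constructor
          · intro h
            have h' := (P0_and_P1 (hlt i hAi) hAi l).mp h
            exact ⟨Or.inl h'.1, h'.2⟩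
          · rintro ⟨h | ⟨i', hi', h⟩, h1⟩
            · exact (P0_and_P1 (hlt i hAi) hAi l).mpr ⟨h, h1⟩
            · have hne' : i' ≠ i := by
                rintro rfl
                rcases Finset.mem_insert.mp hi' with h | h
                · exact hii h
                · exact hi h
              have hl : l = [] := by
                by_contra hl
                obtain ⟨g0, hg0⟩ := List.exists_mem_of_ne_nil l hl
                exact hne' (Sol_inj hM ((h.2 g0 hg0).symm.trans (h1.2 g0 hg0)))
              subst hl
              exact ⟨KC_nil _ _ _ _, by simp⟩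
        · constructor
          · rintro ((h | ⟨i', hi', h⟩) | h)
            · exact Or.inl h
            · refine Or.inr ⟨i', ?_, h⟩
              rw [Finset.mem_insert] at hi' ⊢
              rcases hi' with h | h
              · exact Or.inl h
              · exact Or.inr (Finset.mem_insert_of_mem h)
            · exact Or.inr ⟨i, by simp, h⟩
          · rintro (h | ⟨i', hi', h⟩)
            · exact Or.inl (Or.inl h)
            · simp only [Finset.mem_insert] at hi'
              rcases hi' with rfl | rfl | hi'
              · exact Or.inl (Or.inr ⟨_, by simp, h⟩)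
              · exact Or.inr h
              · exact Or.inl (Or.inr ⟨i', by simp [hi'], h⟩)
  refine (hU ((Finset.range k).filter (A b)) (by simp)).congr fun l => ?_
  constructor
  · rintro (h | ⟨i, hi, h⟩)
    · exact P0_to_KC (hSW hb) (hA b hb) h
    · have hAi : A b i := by
        rcases Finset.mem_insert.mp hi with rfl | hi
        · exact hi1
        · exact (Finset.mem_filter.mp hi).2
      exact P1_to_KC hM (hSW hb) (hlt i hAi) (hA b hb i hAi) hAi h
  · intro h
    rcases KC_to hM (hSW hb) hb h with h | ⟨i, hi, h⟩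
    · exact Or.inl h
    · exact Or.inr ⟨i, by simp [hlt i hi, hi], h⟩

lemma RC.exists_base {W : Finset V} {att : V → ℕ → Prop} {l : List (V → ℕ → ℕ)} {i : ℕ} {v : V}
    (h : RC adj M W att l i v) : ∃ u ∈ W, att u i ∧ ∀ g ∈ l, g u = Sol M i := by
  induction h with
  | base hu hs ha => exact ⟨_, hu, ha, hs⟩
  | step _ _ _ _ ih => exact ih

lemma RW.exists_base {W : Finset V} {att : V → ℕ → Prop} {v : V}
    (h : RW adj W att v) : ∃ u ∈ W, ∃ i, att u i := by
  induction h with
  | base i hu ha => exact ⟨_, hu, i, ha⟩
  | step _ _ _ ih => exact ih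

/-- The complex of fractional rooted partitions is highly acyclic. -/
theorem acyc_KC (hM : 0 < M) : ∀ (n : ℕ) (W : Finset V), W.card = n →
    ∀ (att : V → ℕ → Prop) (S : Finset V) (A : V → ℕ → Prop) (j : ℕ),
    (∀ u i, att u i → i < k) → S ⊆ W → (∀ b ∈ S, ∀ i, A b i → att b i) →
    (∀ b ∈ S, ∃ i, A b i) → RJ adj W att j → Acyc (KC adj k M W att S A) j := by
  classical
  intro n
  induction n with
  | zero =>
    intro W hW att S A j _ hSW _ _ _
    rw [Finset.card_eq_zero] at hW
    subst hW
    have hS : S = ∅ := Finset.subset_empty.mp hSW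
    subst hS
    refine acyc_of_cone (fun _ _ => 0) (fun l _ => ?_) j
    refine ⟨?_, ?_, ?_⟩ <;> simp
  | succ n ih =>
    intro W hW att S A j hatt hSW hA hA' hRJ
    have hrest : ∀ (S : Finset V) (A : V → ℕ → Prop), S ⊆ W → (∀ b ∈ S, ∀ i, A b i → att b i) →
        (∀ b ∈ S, ∃ i, A b i) → S.Nonempty → Acyc (KC adj k M W att S A) j := by
      rintro S A hSW hA hA' ⟨b, hb⟩
      have hcard : (W.erase b).card = n := by
        rw [Finset.card_erase_of_mem (hSW hb), hW]; rfl
      refine acyc_restricted hM hatt hSW hA hb (hA' b hb) ?_ ?_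
      · intro i hi
        refine ih _ hcard _ _ _ _ ?_ (Finset.erase_subset_erase b hSW) ?_ ?_
          (RJ_attb hRJ (hSW hb) i)
        · rintro u i' (h | ⟨rfl, -⟩)
          · exact hatt u i' h
          · exact hatt b _ (hA b hb _ hi)
        · intro c hc i' hi'
          exact Or.inl (hA c (Finset.mem_of_mem_erase hc) i' hi')
        · exact fun c hc => hA' c (Finset.mem_of_mem_erase hc)
      · refine ih _ hcard _ _ _ _ hatt (Finset.erase_subset_erase b hSW) ?_ ?_
          (RJ_erase hRJ (hSW hb))
        · exact fun c hc => hA c (Finset.mem_of_mem_erase hc)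
        · exact fun c hc => hA' c (Finset.mem_of_mem_erase hc)
    rcases S.eq_empty_or_nonempty with rfl | hSne
    · rcases Nat.eq_zero_or_pos j with rfl | hj
      · intro n hn; omega
      have hWne : W.Nonempty := Finset.card_pos.mp (by omega)
      set B : Finset V := W.filter (fun u => ∃ i, att u i) with hB
      have hBne : B.Nonempty := by
        obtain ⟨w, hw⟩ := hWne
        have h1 := hRJ ∅ (Finset.empty_subset _) (by simpa using hj) w (by simpa using hw)
        rw [Finset.sdiff_empty] at h1
        obtain ⟨u, hu, i, hi⟩ := h1.exists_base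
        exact ⟨u, Finset.mem_filter.mpr ⟨hu, i, hi⟩⟩
      refine (acyc_iUnion (fun b => KC adj k M W att {b} att) (fun b => isCx_KC _ _ _ _) j B hBne
        (fun _ => True) (fun _ _ _ _ => trivial) ?_).congr fun l => ?_
      · intro S' hS' hne'
        refine (hrest S' att (hS'.trans (Finset.filter_subset _ _)) (fun b _ i h => h)
          (fun b hb => (Finset.mem_filter.mp (hS' hb)).2) hne').congr fun l => ?_
        constructor
        · intro h
          refine ⟨trivial, fun b hb => ⟨h.1, h.2.1, fun g hg c hc i hi => ?_⟩⟩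
          rw [Finset.mem_singleton] at hc
          subst hc
          exact h.2.2 g hg c hb i hi
        · rintro ⟨-, h⟩
          obtain ⟨b0, hb0⟩ := hne'
          refine ⟨(h b0 hb0).1, (h b0 hb0).2.1, fun g hg b hb i hi => ?_⟩
          exact (h b hb).2.2 g hg b (Finset.mem_singleton_self b) i hi
      · constructor
        · rintro ⟨-, b, hb, h⟩
          exact ⟨h.1, h.2.1, by simp⟩
        · intro h
          refine ⟨trivial, ?_⟩
          rcases List.eq_nil_or_concat' l with rfl | ⟨l0, g0, rfl⟩
          · obtain ⟨b, hb⟩ := hBne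
            exact ⟨b, hb, KC_nil _ _ _ _⟩
          · set l := l0 ++ [g0] with hl
            have hg0 : g0 ∈ l := by simp [hl]
            by_cases hRC : ∃ i v, RC adj M W att l i v
            · obtain ⟨i, v, hv⟩ := hRC
              obtain ⟨u, hu, hatt', hs⟩ := hv.exists_base
              refine ⟨u, Finset.mem_filter.mpr ⟨hu, i, hatt'⟩, h.1, h.2.1, ?_⟩
              intro g hg c hc i' hi'
              rw [Finset.mem_singleton] at hc
              subst hc
              rw [hs g hg] at hi'
              rw [Sol_supp hi']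
              exact hatt'
            · push Not at hRC
              obtain ⟨u, hu⟩ := hWne
              have hsupp : ∀ g ∈ l, ∀ i, g u i < g u (i + 1) → att u i := by
                intro g hg i hi
                rcases (h.1 g hg u hu).2 i hi with h' | ⟨v, hv, -⟩
                · exact h'
                · exact absurd hv (hRC i v)
              obtain ⟨i, hi⟩ := (h.1 g0 hg0 u hu).1.exists_supp hM
              refine ⟨u, Finset.mem_filter.mpr ⟨hu, i, hsupp g0 hg0 i hi⟩, h.1, h.2.1, ?_⟩
              intro g hg c hc i' hi'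
              rw [Finset.mem_singleton] at hc
              subst hc
              exact hsupp g hg i' hi'
    · exact hrest S A hSW hA hA' hSne

end Pool.Agent.Helper35.DC
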