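import Mathlib

/-!
# Chains of ordered simplices modulo 2

A complex on a vertex type `α` is a predicate `K` on lists of vertices, closed under passing to
lists with fewer entries. Chains are finitely supported functions on lists with values in `ZMod 2`.
-/

namespace Pool.Agent.Helper35.DC

open Finsupp

variable {α β : Type}

/-- Chains modulo 2 of ordered simplices. -/
abbrev Ch (α : Type) : Type := List α →₀ ZMod 2

/-- Adding a vertex in front. -/
noncomputable def cn (a : α) : Ch α →ₗ[ZMod 2] Ch α := Finsupp.lmapDomain _ _ (List.cons a)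

/-- Push forward along a map of vertices. -/
noncomputable def pf (f : α → β) : Ch α →ₗ[ZMod 2] Ch β := Finsupp.lmapDomain _ _ (List.map f)

/-- Boundary of a list. -/
noncomputable def dl : List α → Ch α
  | [] => 0
  | a :: l => single l 1 + cn a (dl l)

/-- Boundary. -/
noncomputable def bd : Ch α →ₗ[ZMod 2] Ch α := Finsupp.linearCombination (ZMod 2) dl

@[simp] lemma cn_single (a : α) (l : List α) (x : ZMod 2) : cn a (single l x) = single (a :: l) x := by
  simp [cn]

@[simp] lemma pf_single (f : α → β) (l : List α) (x : ZMod 2) :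
    pf f (single l x) = single (l.map f) x := by
  simp [pf]

@[simp] lemma bd_single (l : List α) : bd (single l 1) = dl l := by
  simp [bd]

lemma ch_add_self (c : Ch α) : c + c = 0 := by
  ext l
  simp [CharTwo.add_self_eq_zero]

lemma ch_ext {γ : Type} [AddCommGroup γ] [Module (ZMod 2) γ] {f g : Ch α →ₗ[ZMod 2] γ}
    (h : ∀ l, f (single l 1) = g (single l 1)) : f = g := by
  refine Finsupp.lhom_ext' fun l => ?_
  refine LinearMap.ext_ring ?_
  simpa using h l

/-- `∂ (a * c) = c + a * ∂ c`. -/
lemma bd_cn (a : α) (c : Ch α) : bd (cn a c) = c + cn a (bd c) := by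
  have : bd ∘ₗ cn a = LinearMap.id + cn a ∘ₗ bd := by
    refine ch_ext fun l => ?_
    simp [dl]
  exact LinearMap.congr_fun this c

lemma bd_dl (l : List α) : bd (dl l) = 0 := by
  induction l with
  | nil => simp [dl]
  | cons a l ih =>
    rw [dl, map_add, bd_single, bd_cn, ih, map_zero, add_zero]
    exact ch_add_self _

lemma bd_bd (c : Ch α) : bd (bd c) = 0 := by
  have : (bd : Ch α →ₗ[ZMod 2] Ch α) ∘ₗ bd = 0 := by
    refine ch_ext fun l => ?_
    simp [bd_dl]
  exact LinearMap.congr_fun this c

lemma pf_cn (f : α → β) (a : α) (c : Ch α) : pf f (cn a c) = cn (f a) (pf f c) := by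
  have : pf f ∘ₗ cn a = cn (f a) ∘ₗ pf f := by
    refine ch_ext fun l => ?_
    simp
  exact LinearMap.congr_fun this c

lemma pf_dl (f : α → β) (l : List α) : pf f (dl l) = dl (l.map f) := by
  induction l with
  | nil => simp [dl]
  | cons a l ih => simp [dl, pf_cn, ih]

lemma pf_bd (f : α → β) (c : Ch α) : pf f (bd c) = bd (pf f c) := by
  have : pf f ∘ₗ bd = bd ∘ₗ pf f := by
    refine ch_ext fun l => ?_
    simp [pf_dl]
  exact LinearMap.congr_fun this c

/-- Chains supported on the simplices of `K` with `n` vertices. -/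
def On (K : List α → Prop) (n : ℕ) : Submodule (ZMod 2) (Ch α) :=
  Finsupp.supported (ZMod 2) (ZMod 2) {l | K l ∧ l.length = n}

lemma mem_On {K : List α → Prop} {n : ℕ} {c : Ch α} :
    c ∈ On K n ↔ ∀ l, c l ≠ 0 → K l ∧ l.length = n := by
  rw [On, Finsupp.mem_supported]
  constructor
  · intro h l hl
    exact h (Finsupp.mem_support_iff.mpr hl)
  · intro h l hl
    exact h l (Finsupp.mem_support_iff.mp hl)

lemma single_mem_On {K : List α → Prop} {n : ℕ} {l : List α} (h : K l) (hl : l.length = n)
    (x : ZMod 2) : single l x ∈ On K n :=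
  Finsupp.single_mem_supported _ _ ⟨h, hl⟩

lemma On_mono {K L : List α → Prop} (h : ∀ l, K l → L l) (n : ℕ) : On K n ≤ On L n := by
  intro c hc
  rw [mem_On] at hc ⊢
  exact fun l hl => ⟨h l (hc l hl).1, (hc l hl).2⟩

/-- Induction principle for membership of images of chains. -/
lemma map_mem_of {K : List α → Prop} {n : ℕ} {γ : Type} [AddCommGroup γ] [Module (ZMod 2) γ]
    (f : Ch α →ₗ[ZMod 2] γ) (P : Submodule (ZMod 2) γ)
    (h : ∀ l, K l → l.length = n → f (single l 1) ∈ P) {c : Ch α} (hc : c ∈ On K n) : f c ∈ P := by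
  rw [On, Finsupp.supported_eq_span_single] at hc
  have hle : Submodule.span (ZMod 2) ((fun i => single i (1 : ZMod 2)) '' {l | K l ∧ l.length = n})
      ≤ P.comap f := by
    rw [Submodule.span_le]
    rintro _ ⟨l, ⟨hl, hn⟩, rfl⟩
    exact h l hl hn
  exact hle hc

/-- A complex: closed under passing to lists with fewer entries. -/
def IsCx (K : List α → Prop) : Prop := ∀ l l' : List α, l' ⊆ l → K l → K l'

lemma dl_mem (l : List α) (n : ℕ) (hl : l.length = n + 1) :
    dl l ∈ On (fun l' => l' ⊆ l) n := by
  induction l generalizing n with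
  | nil => simp at hl
  | cons a l ih =>
    simp only [List.length_cons, Nat.add_right_cancel_iff] at hl
    rw [dl]
    refine Submodule.add_mem _ (single_mem_On (by simp) hl 1) ?_
    cases n with
    | zero =>
      rw [List.length_eq_zero_iff] at hl
      subst hl
      simp [dl]
    | succ n =>
      have h := ih n hl
      refine map_mem_of (cn a) _ ?_ h
      intro l' hl' hlen
      rw [cn_single]
      refine single_mem_On ?_ (by simp [hlen]) 1
      exact List.cons_subset_cons a hl'

lemma bd_mem {K : List α → Prop} (hK : IsCx K) {n : ℕ} {c : Ch α} (hc : c ∈ On K (n + 1)) :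
    bd c ∈ On K n := by
  refine map_mem_of bd _ ?_ hc
  intro l hl hlen
  rw [bd_single]
  exact On_mono (fun l' hl' => hK l l' hl' hl) n (dl_mem l n hlen)

lemma bd_mem_zero {K : List α → Prop} {c : Ch α} (hc : c ∈ On K 0) : bd c = 0 := by
  have := map_mem_of (K := K) (n := 0) bd (⊥ : Submodule (ZMod 2) (Ch α)) (by
    intro l _ hlen
    rw [List.length_eq_zero_iff] at hlen
    subst hlen
    simp [dl]) hc
  simpa using this

lemma cn_mem {K L : List α → Prop} {a : α} (h : ∀ l, K l → L (a :: l)) {n : ℕ} {c : Ch α}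
    (hc : c ∈ On K n) : cn a c ∈ On L (n + 1) := by
  refine map_mem_of (cn a) _ ?_ hc
  intro l hl hlen
  rw [cn_single]
  exact single_mem_On (h l hl) (by simp [hlen]) 1

lemma pf_mem {K : List α → Prop} {L : List β → Prop} {f : α → β} (h : ∀ l, K l → L (l.map f))
    {n : ℕ} {c : Ch α} (hc : c ∈ On K n) : pf f c ∈ On L n := by
  refine map_mem_of (pf f) _ ?_ hc
  intro l hl hlen
  rw [pf_single]
  exact single_mem_On (h l hl) (by simp [hlen]) 1

/-- Chains split according to a cover by two complexes. -/
lemma On_or {K L : List α → Prop} {n : ℕ} {c : Ch α} (hc : c ∈ On (fun l => K l ∨ L l) n) :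
    ∃ c₁ ∈ On K n, ∃ c₂ ∈ On L n, c = c₁ + c₂ := by
  classical
  refine ⟨c.filter K, ?_, c.filter (fun l => ¬ K l), ?_, (Finsupp.filter_add_filter_not c K).symm⟩
  · rw [mem_On] at hc ⊢
    intro l hl
    rw [Finsupp.filter_apply] at hl
    split_ifs at hl with h
    · exact ⟨h, (hc l hl).2⟩
    · exact absurd rfl hl
  · rw [mem_On] at hc ⊢
    intro l hl
    rw [Finsupp.filter_apply] at hl
    split_ifs at hl with h
    · exact absurd rfl hl
    · exact ⟨(hc l hl).1.resolve_left (by simpa using h), (hc l hl).2⟩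

lemma On_and {K L : List α → Prop} {n : ℕ} {c : Ch α} (h1 : c ∈ On K n) (h2 : c ∈ On L n) :
    c ∈ On (fun l => K l ∧ L l) n := by
  rw [mem_On] at *
  exact fun l hl => ⟨⟨(h1 l hl).1, (h2 l hl).1⟩, (h1 l hl).2⟩

/-- Cycles with fewer than `j` vertices are boundaries. -/
def Acyc (K : List α → Prop) (j : ℕ) : Prop :=
  ∀ n < j, ∀ c ∈ On K n, bd c = 0 → ∃ e ∈ On K (n + 1), bd e = c

lemma Acyc.mono {K : List α → Prop} {j j' : ℕ} (h : Acyc K j) (hj : j' ≤ j) : Acyc K j' :=
  fun n hn => h n (lt_of_lt_of_le hn hj)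

lemma Acyc.congr {K L : List α → Prop} {j : ℕ} (h : Acyc K j) (hKL : ∀ l, K l ↔ L l) :
    Acyc L j := by
  have : K = L := funext fun l => propext (hKL l)
  exact this ▸ h

/-- Cones are acyclic. -/
lemma acyc_of_cone {K : List α → Prop} (a : α) (h : ∀ l, K l → K (a :: l)) (j : ℕ) : Acyc K j := by
  intro n _ c hc hbd
  refine ⟨cn a c, cn_mem h hc, ?_⟩
  rw [bd_cn, hbd, map_zero, add_zero]

/-- Retracts of acyclic complexes are acyclic. -/
lemma Acyc.retract {K L : List α → Prop} {j : ℕ} (hK : Acyc K j) (hLK : ∀ l, L l → K l)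
    (r : α → α) (hr : ∀ l, K l → L (l.map r)) (hid : ∀ l, L l → l.map r = l) : Acyc L j := by
  intro n hn c hc hbd
  obtain ⟨e, he, hee⟩ := hK n hn c (On_mono hLK n hc) hbd
  refine ⟨pf r e, pf_mem hr he, ?_⟩
  rw [← pf_bd, hee]
  have := map_mem_of (K := L) (n := n) (pf r + LinearMap.id)
    (⊥ : Submodule (ZMod 2) (Ch α)) (by
      intro l hl _
      simp only [LinearMap.add_apply, pf_single, LinearMap.id_apply, hid l hl]
      rw [ch_add_self]
      exact Submodule.zero_mem _) hc
  simp only [LinearMap.add_apply, LinearMap.id_apply, Submodule.mem_bot] at this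
  have h2 := congrArg (· + c) this
  simp only [add_assoc, ch_add_self, add_zero, zero_add] at h2
  exact h2

/-- Mayer–Vietoris. -/
lemma Acyc.union {K L : List α → Prop} {j : ℕ} (hKc : IsCx K) (hLc : IsCx L) (hK : Acyc K j)
    (hL : Acyc L j) (hKL : Acyc (fun l => K l ∧ L l) (j - 1)) :
    Acyc (fun l => K l ∨ L l) j := by
  intro n hn c hc hbd
  obtain ⟨c₁, h1, c₂, h2, rfl⟩ := On_or hc
  rw [map_add] at hbd
  have hb : bd c₁ = bd c₂ := by
    have := congrArg (· + bd c₂) hbd
    simpa [add_assoc, ch_add_self] using this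
  have key : ∃ e ∈ On (fun l => K l ∧ L l) n, bd e = bd c₁ := by
    cases n with
    | zero => exact ⟨0, Submodule.zero_mem _, by rw [bd_mem_zero h1, map_zero]⟩
    | succ n =>
      refine hKL n (by omega) (bd c₁) (On_and (bd_mem hKc h1) ?_) (bd_bd _)
      rw [hb]
      exact bd_mem hLc h2
  obtain ⟨e, he, hee⟩ := key
  obtain ⟨f₁, hf1, hf1'⟩ := hK n hn (c₁ + e)
    (Submodule.add_mem _ h1 (On_mono (fun l h => h.1) n he)) (by
      rw [map_add, hee]; exact ch_add_self _)
  obtain ⟨f₂, hf2, hf2'⟩ := hL n hn (c₂ + e)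
    (Submodule.add_mem _ h2 (On_mono (fun l h => h.2) n he)) (by
      rw [map_add, hee, hb]; exact ch_add_self _)
  refine ⟨f₁ + f₂, Submodule.add_mem _ (On_mono (fun l h => Or.inl h) _ hf1)
    (On_mono (fun l h => Or.inr h) _ hf2), ?_⟩
  rw [map_add, hf1', hf2']
  calc c₁ + e + (c₂ + e) = c₁ + c₂ + (e + e) := by abel
    _ = c₁ + c₂ := by rw [ch_add_self, add_zero]

/-- Gluing when one piece deforms into the intersection. -/
lemma Acyc.union_def {K L : List α → Prop} {j : ℕ} (hKc : IsCx K) (hLc : IsCx L)
    (hL : Acyc L j) (hKL : Acyc (fun l => K l ∧ L l) (j - 1))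
    (hdef : ∀ n < j, ∀ z ∈ On K n, bd z = 0 → ∃ z' ∈ On (fun l => K l ∧ L l) n,
      ∃ h ∈ On K (n + 1), z = z' + bd h) :
    Acyc (fun l => K l ∨ L l) j := by
  intro n hn c hc hbd
  obtain ⟨c₁, h1, c₂, h2, rfl⟩ := On_or hc
  rw [map_add] at hbd
  have hb : bd c₁ = bd c₂ := by
    have := congrArg (· + bd c₂) hbd
    simpa [add_assoc, ch_add_self] using this
  have key : ∃ e ∈ On (fun l => K l ∧ L l) n, bd e = bd c₁ := by
    cases n with
    | zero => exact ⟨0, Submodule.zero_mem _, by rw [bd_mem_zero h1, map_zero]⟩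
    | succ n =>
      refine hKL n (by omega) (bd c₁) (On_and (bd_mem hKc h1) ?_) (bd_bd _)
      rw [hb]
      exact bd_mem hLc h2
  obtain ⟨e, he, hee⟩ := key
  have hz : bd (c₁ + e) = 0 := by rw [map_add, hee]; exact ch_add_self _
  obtain ⟨z', hz', h, hh, hzz⟩ := hdef n hn (c₁ + e)
    (Submodule.add_mem _ h1 (On_mono (fun l h => h.1) n he)) hz
  have hz'0 : bd z' = 0 := by
    rw [hzz, map_add, bd_bd, add_zero] at hz
    exact hz
  obtain ⟨f₂, hf2, hf2'⟩ := hL n hn (c₂ + e + z')
    (Submodule.add_mem _ (Submodule.add_mem _ h2 (On_mono (fun l h => h.2) n he))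
      (On_mono (fun l h => h.2) n hz')) (by
      rw [map_add, map_add, hee, hb, hz'0, add_zero]; exact ch_add_self _)
  refine ⟨h + f₂, Submodule.add_mem _ (On_mono (fun l h => Or.inl h) _ hh)
    (On_mono (fun l h => Or.inr h) _ hf2), ?_⟩
  rw [map_add, hf2']
  have e1 : bd h = c₁ + e + z' := by
    rw [hzz]
    calc bd h = bd h + (z' + z') := by rw [ch_add_self, add_zero]
      _ = z' + bd h + z' := by abel
  rw [e1]
  calc c₁ + e + z' + (c₂ + e + z') = c₁ + c₂ + (e + e) + (z' + z') := by abel
    _ = c₁ + c₂ := by rw [ch_add_self, ch_add_self, add_zero, add_zero]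

/-- The prism of a list. -/
noncomputable def prl (f g : α → β) : List α → Ch β
  | [] => 0
  | a :: l => cn (f a) (single (g a :: l.map g) 1) + cn (f a) (prl f g l)

/-- The prism operator. -/
noncomputable def pr (f g : α → β) : Ch α →ₗ[ZMod 2] Ch β := Finsupp.linearCombination _ (prl f g)

@[simp] lemma pr_single (f g : α → β) (l : List α) : pr f g (single l 1) = prl f g l := by
  simp [pr]

lemma pr_cn (f g : α → β) (a : α) (c : Ch α) :
    pr f g (cn a c) = cn (f a) (cn (g a) (pf g c)) + cn (f a) (pr f g c) := by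
  have : pr f g ∘ₗ cn a = cn (f a) ∘ₗ cn (g a) ∘ₗ pf g + cn (f a) ∘ₗ pr f g := by
    refine ch_ext fun l => ?_
    simp [prl]
  exact LinearMap.congr_fun this c

lemma prism_list (f g : α → β) (l : List α) :
    bd (prl f g l) + pr f g (dl l) = single (l.map f) 1 + single (l.map g) 1 := by
  induction l with
  | nil => simp [prl, dl, ch_add_self]
  | cons a l ih =>
    rw [prl, dl, map_add, map_add, bd_cn, bd_single, dl, bd_cn, pr_single, pr_cn, pf_dl,
      map_add, cn_single, List.map_cons, List.map_cons]
    have ih' : cn (f a) (bd (prl f g l)) + cn (f a) (pr f g (dl l)) =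
        single (f a :: l.map f) 1 + single (f a :: l.map g) 1 := by
      rw [← map_add, ih, map_add, cn_single, cn_single]
    have e1 : single (g a :: List.map g l) 1 +
          (single (f a :: List.map g l) 1 + cn (f a) (cn (g a) (dl (List.map g l)))) +
          (prl f g l + cn (f a) (bd (prl f g l))) +
          (prl f g l + (cn (f a) (cn (g a) (dl (List.map g l))) + cn (f a) (pr f g (dl l)))) =
        single (g a :: List.map g l) 1 + single (f a :: List.map g l) 1 +
          (cn (f a) (cn (g a) (dl (List.map g l))) + cn (f a) (cn (g a) (dl (List.map g l)))) +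
          (prl f g l + prl f g l) +
          (cn (f a) (bd (prl f g l)) + cn (f a) (pr f g (dl l))) := by abel
    refine e1.trans ?_
    rw [ch_add_self, ch_add_self, ih', add_zero, add_zero]
    calc single (g a :: List.map g l) (1 : ZMod 2) + single (f a :: List.map g l) 1 +
          (single (f a :: List.map f l) 1 + single (f a :: List.map g l) 1) =
        single (f a :: List.map f l) 1 + single (g a :: List.map g l) 1 +
          (single (f a :: List.map g l) 1 + single (f a :: List.map g l) 1) := by abel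
      _ = _ := by rw [ch_add_self, add_zero]

lemma prism (f g : α → β) (c : Ch α) : bd (pr f g c) + pr f g (bd c) = pf f c + pf g c := by
  have : bd ∘ₗ pr f g + pr f g ∘ₗ bd = pf f + pf g := by
    refine ch_ext fun l => ?_
    simpa using prism_list f g l
  exact LinearMap.congr_fun this c

lemma prl_mem (f g : α → β) (l : List α) (n : ℕ) (hl : l.length = n) :
    prl f g l ∈ On (fun m => m ⊆ l.map f ++ l.map g) (n + 1) := by
  induction l generalizing n with
  | nil => simp [prl]
  | cons a l ih =>
    cases n with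
    | zero => simp at hl
    | succ n =>
      simp only [List.length_cons, Nat.add_right_cancel_iff] at hl
      rw [prl, cn_single]
      refine Submodule.add_mem _ (single_mem_On ?_ (by simp [hl]) 1) ?_
      · intro x hx
        simp only [List.mem_cons, List.mem_append, List.map_cons] at hx ⊢
        tauto
      · refine cn_mem ?_ (ih n hl)
        intro m hm x hx
        simp only [List.mem_cons, List.mem_append, List.map_cons] at hx ⊢
        rcases hx with rfl | hx
        · tauto
        · have := hm hx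
          rw [List.mem_append] at this
          tauto

/-- Contiguous maps are homologous on cycles. -/
lemma contiguous {K : List α → Prop} {L : List β → Prop} (hL : IsCx L) {f g : α → β}
    (h : ∀ l, K l → L (l.map f ++ l.map g)) {n : ℕ} {c : Ch α} (hc : c ∈ On K n)
    (hbd : bd c = 0) : ∃ e ∈ On L (n + 1), pf f c = pf g c + bd e := by
  refine ⟨pr f g c, ?_, ?_⟩
  · refine map_mem_of (pr f g) _ ?_ hc
    intro l hl hlen
    rw [pr_single]
    exact On_mono (fun m hm => hL _ m hm (h l hl)) _ (prl_mem f g l n hlen)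
  · have := prism f g c
    rw [hbd, map_zero, add_zero] at this
    rw [this]
    calc pf f c = pf f c + (pf g c + pf g c) := by rw [ch_add_self, add_zero]
      _ = pf g c + (pf f c + pf g c) := by abel

/-- A union of finitely many complexes all of whose intersections are acyclic. -/
lemma acyc_iUnion {ι : Type} [DecidableEq ι] (K : ι → List α → Prop) (hK : ∀ i, IsCx (K i))
    (j : ℕ) : ∀ (B : Finset ι), B.Nonempty → ∀ P : List α → Prop, IsCx P →
      (∀ S ⊆ B, S.Nonempty → Acyc (fun l => P l ∧ ∀ i ∈ S, K i l) j) →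
      Acyc (fun l => P l ∧ ∃ i ∈ B, K i l) j := by
  intro B
  induction B using Finset.induction_on with
  | empty => intro h; exact absurd h Finset.not_nonempty_empty
  | insert b B hb ih =>
    intro _ P hP hS
    rcases B.eq_empty_or_nonempty with rfl | hne
    · refine (hS {b} (by simp) (by simp)).congr fun l => ?_
      simp
    · have h1 : Acyc (fun l => P l ∧ K b l) j :=
        (hS {b} (by simp) (by simp)).congr fun l => by simp
      have h2 : Acyc (fun l => P l ∧ ∃ i ∈ B, K i l) j :=
        ih hne P hP fun S hSB hSne => hS S (hSB.trans (Finset.subset_insert _ _)) hSne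
      have h3 : Acyc (fun l => (P l ∧ K b l) ∧ ∃ i ∈ B, K i l) j := by
        refine ih hne (fun l => P l ∧ K b l)
          (fun l l' hl h => ⟨hP l l' hl h.1, hK b l l' hl h.2⟩) fun S hSB hSne => ?_
        refine (hS (insert b S) (Finset.insert_subset_insert b hSB) (by simp)).congr fun l => ?_
        simp only [Finset.mem_insert, forall_eq_or_imp]
        tauto
      refine (Acyc.union (fun l l' hl h => ⟨hP l l' hl h.1, hK b l l' hl h.2⟩) ?_ h1 h2
        ((h3.mono (Nat.sub_le j 1)).congr fun l => ?_)).congr fun l => ?_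
      · rintro l l' hl ⟨h, i, hi, hi'⟩
        exact ⟨hP l l' hl h, i, hi, hK i l l' hl hi'⟩
      · tauto
      · simp only [Finset.mem_insert, exists_eq_or_imp]
        tauto

end Pool.Agent.Helper35.DC
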