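import Pool.Agent.Helper35.DC.Chains

/-!
# The complex of fractional rooted partitions is highly acyclic
-/

namespace Pool.Agent.Helper35.DC

open Finsupp

/-- Cumulative distribution of `M` units over the labels `< k`. -/
structure Good (k M : ℕ) (y : ℕ → ℕ) : Prop where
  mono : ∀ j, y j ≤ y (j + 1)
  zero : y 0 = 0
  top : ∀ j, k ≤ j → y j = M

/-- All units have label `i`. -/
def Sol (M i : ℕ) : ℕ → ℕ := fun j => if j ≤ i then 0 else M

lemma Sol_supp {M i j : ℕ} (h : Sol M i j < Sol M i (j + 1)) : j = i := by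
  unfold Sol at h
  split_ifs at h <;> omega

lemma Sol_lt {M : ℕ} (hM : 0 < M) (i : ℕ) : Sol M i i < Sol M i (i + 1) := by
  simp [Sol, hM]

lemma Sol_inj {M : ℕ} (hM : 0 < M) {i i' : ℕ} (h : Sol M i = Sol M i') : i = i' :=
  Sol_supp (h ▸ Sol_lt hM i)

lemma Sol_good {k M i : ℕ} (hi : i < k) : Good k M (Sol M i) := by
  refine ⟨fun j => ?_, ?_, fun j hj => ?_⟩
  · unfold Sol; split_ifs <;> omega
  · simp [Sol]
  · unfold Sol; split_ifs <;> omega

lemma Good.le {k M : ℕ} {y : ℕ → ℕ} (h : Good k M y) (j : ℕ) : y j ≤ M := by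
  have h1 : ∀ n, y j ≤ y (j + n) := by
    intro n
    induction n with
    | zero => exact le_rfl
    | succ n ih => exact ih.trans (h.mono _)
  have := h1 k
  rwa [h.top (j + k) (by omega)] at this

lemma Good.exists_supp {k M : ℕ} {y : ℕ → ℕ} (hM : 0 < M) (h : Good k M y) :
    ∃ i, y i < y (i + 1) := by
  by_contra hcon
  push Not at hcon
  have : ∀ n, y n = 0 := by
    intro n
    induction n with
    | zero => exact h.zero
    | succ n ih => have := hcon n; omega
  have h2 := h.top k le_rfl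
  rw [this k] at h2
  omega

lemma Good.supp_lt {k M : ℕ} {y : ℕ → ℕ} (h : Good k M y) {i : ℕ} (hi : y i < y (i + 1)) :
    i < k := by
  by_contra hcon
  rw [h.top i (by omega), h.top (i + 1) (by omega)] at hi
  exact lt_irrefl _ hi

variable {V : Type} [DecidableEq V] (adj : V → V → Prop) (k M : ℕ)

/-- The vertices of `W` that are solid with label `i` in all configurations of `l` and joined to
the base of `i` through such vertices. -/
inductive RC (W : Finset V) (att : V → ℕ → Prop) (l : List (V → ℕ → ℕ)) (i : ℕ) : V → Prop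
  | base {u : V} (hu : u ∈ W) (hs : ∀ g ∈ l, g u = Sol M i) (ha : att u i) : RC W att l i u
  | step {u v : V} (hu : u ∈ W) (hs : ∀ g ∈ l, g u = Sol M i) (hv : RC W att l i v)
      (ha : adj u v) : RC W att l i u

/-- The complex of fractional rooted partitions. -/
def KC (W : Finset V) (att : V → ℕ → Prop) (S : Finset V) (A : V → ℕ → Prop)
    (l : List (V → ℕ → ℕ)) : Prop :=
  (∀ g ∈ l, ∀ u ∈ W, Good k M (g u) ∧
    ∀ i, g u i < g u (i + 1) → (att u i ∨ ∃ v, RC adj M W att l i v ∧ adj u v)) ∧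
  (∀ g ∈ l, ∀ g' ∈ l, ∀ u ∈ W, ∀ j, g u j ≤ g' u j + 1) ∧
  (∀ g ∈ l, ∀ b ∈ S, ∀ i, g b i < g b (i + 1) → A b i)

/-- Reachability of all vertices of `W` from the bases. -/
inductive RW (W : Finset V) (att : V → ℕ → Prop) : V → Prop
  | base {u : V} (i : ℕ) (hu : u ∈ W) (ha : att u i) : RW W att u
  | step {u v : V} (hu : u ∈ W) (hv : RW W att v) (ha : adj u v) : RW W att u

/-- Reachability after deletion of fewer than `j` vertices. -/
def RJ (W : Finset V) (att : V → ℕ → Prop) (j : ℕ) : Prop :=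
  ∀ T ⊆ W, T.card < j → ∀ u ∈ W \ T, RW adj (W \ T) att u

variable {adj k M}

lemma RC.mem {W : Finset V} {att : V → ℕ → Prop} {l : List (V → ℕ → ℕ)} {i : ℕ} {v : V}
    (h : RC adj M W att l i v) : v ∈ W := by
  cases h <;> assumption

lemma RC.sol {W : Finset V} {att : V → ℕ → Prop} {l : List (V → ℕ → ℕ)} {i : ℕ} {v : V}
    (h : RC adj M W att l i v) : ∀ g ∈ l, g v = Sol M i := by
  cases h <;> assumption

lemma RW.mem {W : Finset V} {att : V → ℕ → Prop} {v : V} (h : RW adj W att v) : v ∈ W := by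
  cases h <;> assumption

lemma RC.mono {W W' : Finset V} {att att' : V → ℕ → Prop} {l l' : List (V → ℕ → ℕ)} {i : ℕ}
    (hW : W ⊆ W') (hatt : ∀ u i, att u i → att' u i) (hl : l' ⊆ l) {v : V}
    (h : RC adj M W att l i v) : RC adj M W' att' l' i v := by
  induction h with
  | base hu hs ha => exact .base (hW hu) (fun g hg => hs g (hl hg)) (hatt _ _ ha)
  | step hu hs _ ha ih => exact .step (hW hu) (fun g hg => hs g (hl hg)) ih ha

lemma isCx_KC (W : Finset V) (att : V → ℕ → Prop) (S : Finset V) (A : V → ℕ → Prop) :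
    IsCx (KC adj k M W att S A) := by
  intro l l' hl ⟨h1, h2, h3⟩
  refine ⟨fun g hg u hu => ⟨(h1 g (hl hg) u hu).1, fun i hi => ?_⟩,
    fun g hg g' hg' => h2 g (hl hg) g' (hl hg'), fun g hg => h3 g (hl hg)⟩
  rcases (h1 g (hl hg) u hu).2 i hi with h | ⟨v, hv, huv⟩
  · exact Or.inl h
  · exact Or.inr ⟨v, hv.mono subset_rfl (fun _ _ h => h) hl, huv⟩

lemma KC_nil (W : Finset V) (att : V → ℕ → Prop) (S : Finset V) (A : V → ℕ → Prop) :
    KC adj k M W att S A [] := by
  refine ⟨?_, ?_, ?_⟩ <;> simp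

lemma KC.mono_att {W : Finset V} {att att' : V → ℕ → Prop} {S : Finset V} {A : V → ℕ → Prop}
    (hatt : ∀ u i, att u i → att' u i) {l : List (V → ℕ → ℕ)} (h : KC adj k M W att S A l) :
    KC adj k M W att' S A l := by
  refine ⟨fun g hg u hu => ⟨(h.1 g hg u hu).1, fun i hi => ?_⟩, h.2.1, h.2.2⟩
  rcases (h.1 g hg u hu).2 i hi with h | ⟨v, hv, huv⟩
  · exact Or.inl (hatt _ _ h)
  · exact Or.inr ⟨v, hv.mono subset_rfl hatt (fun _ h => h), huv⟩

lemma RC_update {W : Finset V} {att : V → ℕ → Prop} {l : List (V → ℕ → ℕ)} {i : ℕ} {b : V}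
    (hb : b ∉ W) (y : (V → ℕ → ℕ) → ℕ → ℕ) {v : V} (h : RC adj M W att l i v) :
    RC adj M W att (l.map fun g => Function.update g b (y g)) i v := by
  have key : ∀ u ∈ W, (∀ g ∈ l, g u = Sol M i) →
      ∀ g ∈ l.map (fun g => Function.update g b (y g)), g u = Sol M i := by
    intro u hu hs g hg
    obtain ⟨g', hg', rfl⟩ := List.mem_map.mp hg
    rw [Function.update_of_ne (by rintro rfl; exact hb hu)]
    exact hs g' hg'
  induction h with
  | base hu hs ha => exact .base hu (key _ hu hs) ha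
  | step hu hs _ ha ih => exact .step hu (key _ hu hs) ih ha

lemma KC_update {W : Finset V} {att : V → ℕ → Prop} {S : Finset V} {A : V → ℕ → Prop}
    (hS : S ⊆ W) {l : List (V → ℕ → ℕ)} {b : V} (hb : b ∉ W) (y : (V → ℕ → ℕ) → ℕ → ℕ)
    (h : KC adj k M W att S A l) :
    KC adj k M W att S A (l.map fun g => Function.update g b (y g)) := by
  have hne : ∀ u ∈ W, u ≠ b := by
    rintro u hu rfl; exact hb hu
  refine ⟨?_, ?_, ?_⟩
  · intro g hg u hu
    obtain ⟨g', hg', rfl⟩ := List.mem_map.mp hg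
    rw [Function.update_of_ne (hne u hu)]
    refine ⟨(h.1 g' hg' u hu).1, fun i hi => ?_⟩
    rcases (h.1 g' hg' u hu).2 i hi with h | ⟨v, hv, huv⟩
    · exact Or.inl h
    · exact Or.inr ⟨v, RC_update hb y hv, huv⟩
  · intro g hg g' hg' u hu j
    obtain ⟨g1, hg1, rfl⟩ := List.mem_map.mp hg
    obtain ⟨g2, hg2, rfl⟩ := List.mem_map.mp hg'
    rw [Function.update_of_ne (hne u hu), Function.update_of_ne (hne u hu)]
    exact h.2.1 g1 hg1 g2 hg2 u hu j
  · intro g hg c hc i
    obtain ⟨g', hg', rfl⟩ := List.mem_map.mp hg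
    rw [Function.update_of_ne (hne c (hS hc))]
    exact h.2.2 g' hg' c hc i

/-- Attachment after the vertex `b` has been moved to the base of `i`. -/
def attb (adj : V → V → Prop) (att : V → ℕ → Prop) (b : V) (i : ℕ) : V → ℕ → Prop :=
  fun u i' => att u i' ∨ (i' = i ∧ adj u b)

/-- `b` is a leaf. -/
def P0 (adj : V → V → Prop) (k M : ℕ) (W : Finset V) (att : V → ℕ → Prop) (S : Finset V)
    (A : V → ℕ → Prop) (b : V) (l : List (V → ℕ → ℕ)) : Prop :=
  KC adj k M (W.erase b) att (S.erase b) A l ∧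
    (∀ g ∈ l, Good k M (g b) ∧ ∀ i, g b i < g b (i + 1) → A b i) ∧
    ∀ g ∈ l, ∀ g' ∈ l, ∀ j, g b j ≤ g' b j + 1

/-- `b` is solid with label `i`. -/
def P1 (adj : V → V → Prop) (k M : ℕ) (W : Finset V) (att : V → ℕ → Prop) (S : Finset V)
    (A : V → ℕ → Prop) (b : V) (i : ℕ) (l : List (V → ℕ → ℕ)) : Prop :=
  KC adj k M (W.erase b) (attb adj att b i) (S.erase b) A l ∧ ∀ g ∈ l, g b = Sol M i

/-- The common part. -/
def P2 (adj : V → V → Prop) (k M : ℕ) (W : Finset V) (att : V → ℕ → Prop) (S : Finset V)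
    (A : V → ℕ → Prop) (b : V) (i : ℕ) (l : List (V → ℕ → ℕ)) : Prop :=
  KC adj k M (W.erase b) att (S.erase b) A l ∧ ∀ g ∈ l, g b = Sol M i

lemma isCx_P0 (W : Finset V) (att : V → ℕ → Prop) (S : Finset V) (A : V → ℕ → Prop) (b : V) :
    IsCx (P0 adj k M W att S A b) := fun l l' hl h =>
  ⟨isCx_KC _ _ _ _ l l' hl h.1, fun g hg => h.2.1 g (hl hg),
    fun g hg g' hg' => h.2.2 g (hl hg) g' (hl hg')⟩

lemma isCx_P1 (W : Finset V) (att : V → ℕ → Prop) (S : Finset V) (A : V → ℕ → Prop) (b : V)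
    (i : ℕ) : IsCx (P1 adj k M W att S A b i) := fun l l' hl h =>
  ⟨isCx_KC _ _ _ _ l l' hl h.1, fun g hg => h.2 g (hl hg)⟩

section decomp

variable {W : Finset V} {att : V → ℕ → Prop} {S : Finset V} {A : V → ℕ → Prop} {b : V}

lemma P0_to_KC (hbW : b ∈ W) (hA : ∀ i, A b i → att b i)
    {l : List (V → ℕ → ℕ)} (h : P0 adj k M W att S A b l) : KC adj k M W att S A l := by
  refine ⟨?_, ?_, ?_⟩
  · intro g hg u hu
    by_cases hub : u = b
    · subst hub
      exact ⟨(h.2.1 g hg).1, fun i hi => Or.inl (hA i ((h.2.1 g hg).2 i hi))⟩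
    · have hu' : u ∈ W.erase b := Finset.mem_erase.mpr ⟨hub, hu⟩
      refine ⟨(h.1.1 g hg u hu').1, fun i hi => ?_⟩
      rcases (h.1.1 g hg u hu').2 i hi with h | ⟨v, hv, huv⟩
      · exact Or.inl h
      · exact Or.inr ⟨v, hv.mono (Finset.erase_subset _ _) (fun _ _ h => h) (fun _ h => h), huv⟩
  · intro g hg g' hg' u hu
    by_cases hub : u = b
    · subst hub; exact h.2.2 g hg g' hg'
    · exact h.1.2.1 g hg g' hg' u (Finset.mem_erase.mpr ⟨hub, hu⟩)
  · intro g hg c hc
    by_cases hcb : c = b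
    · subst hcb; exact (h.2.1 g hg).2
    · exact h.1.2.2 g hg c (Finset.mem_erase.mpr ⟨hcb, hc⟩)

lemma RC_of_attb (hbW : b ∈ W) {i : ℕ} (hi : att b i) {l : List (V → ℕ → ℕ)}
    (hs : ∀ g ∈ l, g b = Sol M i) {i' : ℕ} {v : V}
    (h : RC adj M (W.erase b) (attb adj att b i) l i' v) : RC adj M W att l i' v := by
  induction h with
  | base hu hs' ha =>
    rcases ha with ha | ⟨rfl, ha⟩
    · exact .base (Finset.mem_of_mem_erase hu) hs' ha
    · exact .step (Finset.mem_of_mem_erase hu) hs' (.base hbW hs hi) ha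
  | step hu hs' _ ha ih => exact .step (Finset.mem_of_mem_erase hu) hs' ih ha

lemma P1_to_KC (hM : 0 < M) (hbW : b ∈ W) {i : ℕ} (hik : i < k) (hi : att b i)
    (hAi : A b i) {l : List (V → ℕ → ℕ)} (h : P1 adj k M W att S A b i l) :
    KC adj k M W att S A l := by
  obtain ⟨h1, hs⟩ := h
  refine ⟨?_, ?_, ?_⟩
  · intro g hg u hu
    by_cases hub : u = b
    · subst hub
      rw [hs g hg]
      exact ⟨Sol_good hik, fun j hj => Or.inl (by rw [Sol_supp hj]; exact hi)⟩
    · have hu' : u ∈ W.erase b := Finset.mem_erase.mpr ⟨hub, hu⟩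
      refine ⟨(h1.1 g hg u hu').1, fun i' hi' => ?_⟩
      rcases (h1.1 g hg u hu').2 i' hi' with (h | ⟨rfl, h⟩) | ⟨v, hv, huv⟩
      · exact Or.inl h
      · exact Or.inr ⟨b, .base hbW hs hi, h⟩
      · exact Or.inr ⟨v, RC_of_attb hbW hi hs hv, huv⟩
  · intro g hg g' hg' u hu j
    by_cases hub : u = b
    · subst hub; rw [hs g hg, hs g' hg']; omega
    · exact h1.2.1 g hg g' hg' u (Finset.mem_erase.mpr ⟨hub, hu⟩) j
  · intro g hg c hc j hj
    by_cases hcb : c = b
    · subst hcb
      rw [hs g hg] at hj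
      rw [Sol_supp hj]; exact hAi
    · exact h1.2.2 g hg c (Finset.mem_erase.mpr ⟨hcb, hc⟩) j hj

lemma RC_to_attb (hM : 0 < M) {i : ℕ} {l : List (V → ℕ → ℕ)} (hl : l ≠ [])
    (hs : ∀ g ∈ l, g b = Sol M i) {i' : ℕ} {v : V} (h : RC adj M W att l i' v) :
    (v = b ∧ i' = i) ∨ RC adj M (W.erase b) (attb adj att b i) l i' v := by
  obtain ⟨g0, hg0⟩ := List.exists_mem_of_ne_nil l hl
  induction h with
  | @base u hu hs' ha =>
    by_cases hub : u = b
    · subst hub
      left
      refine ⟨rfl, ?_⟩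
      have := hs' g0 hg0
      rw [hs g0 hg0] at this
      exact (Sol_inj hM this).symm
    · exact Or.inr (.base (Finset.mem_erase.mpr ⟨hub, hu⟩) hs' (Or.inl ha))
  | @step u v hu hs' _ ha ih =>
    by_cases hub : u = b
    · subst hub
      left
      refine ⟨rfl, ?_⟩
      have := hs' g0 hg0
      rw [hs g0 hg0] at this
      exact (Sol_inj hM this).symm
    · right
      rcases ih with ⟨rfl, rfl⟩ | ih
      · exact .base (Finset.mem_erase.mpr ⟨hub, hu⟩) hs' (Or.inr ⟨rfl, ha⟩)
      · exact .step (Finset.mem_erase.mpr ⟨hub, hu⟩) hs' ih ha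

lemma RC_erase {l : List (V → ℕ → ℕ)} (hs : ∀ i, ¬ ∀ g ∈ l, g b = Sol M i) {i' : ℕ} {v : V}
    (h : RC adj M W att l i' v) : RC adj M (W.erase b) att l i' v := by
  induction h with
  | @base u hu hs' ha =>
    have hub : u ≠ b := by rintro rfl; exact hs _ hs'
    exact .base (Finset.mem_erase.mpr ⟨hub, hu⟩) hs' ha
  | @step u v hu hs' _ ha ih =>
    have hub : u ≠ b := by rintro rfl; exact hs _ hs'
    exact .step (Finset.mem_erase.mpr ⟨hub, hu⟩) hs' ih ha

lemma KC_to (hM : 0 < M) (hbW : b ∈ W) (hbS : b ∈ S) {l : List (V → ℕ → ℕ)}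
    (h : KC adj k M W att S A l) :
    P0 adj k M W att S A b l ∨ ∃ i, A b i ∧ P1 adj k M W att S A b i l := by
  by_cases hl : l = []
  · subst hl
    left
    exact ⟨KC_nil _ _ _ _, by simp, by simp⟩
  by_cases hsol : ∃ i, ∀ g ∈ l, g b = Sol M i
  · obtain ⟨i, hs⟩ := hsol
    right
    obtain ⟨g0, hg0⟩ := List.exists_mem_of_ne_nil l hl
    refine ⟨i, h.2.2 g0 hg0 b hbS i (by rw [hs g0 hg0]; exact Sol_lt hM i), ⟨?_, ?_, ?_⟩, hs⟩
    · intro g hg u hu
      have hu' := Finset.mem_of_mem_erase hu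
      refine ⟨(h.1 g hg u hu').1, fun i' hi' => ?_⟩
      rcases (h.1 g hg u hu').2 i' hi' with h | ⟨v, hv, huv⟩
      · exact Or.inl (Or.inl h)
      · rcases RC_to_attb hM hl hs hv with ⟨rfl, rfl⟩ | hv'
        · exact Or.inl (Or.inr ⟨rfl, huv⟩)
        · exact Or.inr ⟨v, hv', huv⟩
    · intro g hg g' hg' u hu
      exact h.2.1 g hg g' hg' u (Finset.mem_of_mem_erase hu)
    · intro g hg c hc
      exact h.2.2 g hg c (Finset.mem_of_mem_erase hc)
  · push Not at hsol
    left
    have hs : ∀ i, ¬ ∀ g ∈ l, g b = Sol M i := by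
      intro i hi
      obtain ⟨g, hg, hne⟩ := hsol i
      exact hne (hi g hg)
    refine ⟨⟨?_, ?_, ?_⟩, ?_, ?_⟩
    · intro g hg u hu
      have hu' := Finset.mem_of_mem_erase hu
      refine ⟨(h.1 g hg u hu').1, fun i' hi' => ?_⟩
      rcases (h.1 g hg u hu').2 i' hi' with h | ⟨v, hv, huv⟩
      · exact Or.inl h
      · exact Or.inr ⟨v, RC_erase hs hv, huv⟩
    · intro g hg g' hg' u hu
      exact h.2.1 g hg g' hg' u (Finset.mem_of_mem_erase hu)
    · intro g hg c hc
      exact h.2.2 g hg c (Finset.mem_of_mem_erase hc)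
    · exact fun g hg => ⟨(h.1 g hg b hbW).1, h.2.2 g hg b hbS⟩
    · exact fun g hg g' hg' => h.2.1 g hg g' hg' b hbW

end decomp

/-- Clamp the value at `b` towards the label `i`. -/
def clamp (b : V) (i t : ℕ) (g : V → ℕ → ℕ) : V → ℕ → ℕ :=
  Function.update g b (fun j => if j ≤ i then 0 else max (g b j) t)

lemma RJ_attb {W : Finset V} {att : V → ℕ → Prop} {j : ℕ} (h : RJ adj W att j) {b : V}
    (hbW : b ∈ W) (i : ℕ) : RJ adj (W.erase b) (attb adj att b i) j := by
  intro T hT hTj u hu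
  have h1 := h T (hT.trans (Finset.erase_subset _ _)) hTj u (by
    rw [Finset.mem_sdiff] at hu ⊢
    exact ⟨Finset.mem_of_mem_erase hu.1, hu.2⟩)
  have hub : u ≠ b := by
    rintro rfl
    simp at hu
  clear hu
  induction h1 with
  | @base u i' hu ha =>
    rw [Finset.mem_sdiff] at hu
    exact .base i' (by rw [Finset.mem_sdiff]; exact ⟨Finset.mem_erase.mpr ⟨hub, hu.1⟩, hu.2⟩)
      (Or.inl ha)
  | @step u v hu hv ha ih =>
    rw [Finset.mem_sdiff] at hu
    have hu' : u ∈ W.erase b \ T := by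
      rw [Finset.mem_sdiff]; exact ⟨Finset.mem_erase.mpr ⟨hub, hu.1⟩, hu.2⟩
    by_cases hvb : v = b
    · subst hvb
      exact .base i hu' (Or.inr ⟨rfl, ha⟩)
    · exact .step hu' (ih hvb) ha

lemma RJ_erase {W : Finset V} {att : V → ℕ → Prop} {j : ℕ} (h : RJ adj W att j) {b : V}
    (hbW : b ∈ W) : RJ adj (W.erase b) att (j - 1) := by
  intro T hT hTj u hu
  have hbT : b ∉ T := fun h => by simpa using hT h
  have hWT : W.erase b \ T = W \ insert b T := by
    ext x
    simp only [Finset.mem_sdiff, Finset.mem_erase, Finset.mem_insert]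
    tauto
  rw [hWT] at hu ⊢
  refine h (insert b T) ?_ ?_ u hu
  · exact Finset.insert_subset hbW (hT.trans (Finset.erase_subset _ _))
  · rw [Finset.card_insert_of_notMem hbT]; omega

/-- Deforming the leaf `b` to a solid vertex. -/
lemma leaf_deform {W : Finset V} {att : V → ℕ → Prop} {S : Finset V} {A : V → ℕ → Prop} {b : V}
    (hS : S ⊆ W) {i1 : ℕ} (hi1 : A b i1) (hi1k : i1 < k)
    (hmin : ∀ i, A b i → i1 ≤ i) (n : ℕ) (z : Ch (V → ℕ → ℕ))
    (hz : z ∈ On (P0 adj k M W att S A b) n) (hbd : bd z = 0) :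
    ∃ z' ∈ On (P2 adj k M W att S A b i1) n, ∃ h ∈ On (P0 adj k M W att S A b) (n + 1),
      z = z' + bd h := by
  have hSb : S.erase b ⊆ W.erase b := Finset.erase_subset_erase b hS
  have hbW : b ∉ W.erase b := Finset.notMem_erase b W
  -- initial segment of the values vanishes
  have hval0 : ∀ l, P0 adj k M W att S A b l → ∀ g ∈ l, ∀ j ≤ i1, g b j = 0 := by
    intro l hl g hg j
    induction j with
    | zero => intro _; exact (hl.2.1 g hg).1.zero
    | succ j ih =>
      intro hj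
      by_contra hne
      have h0 := ih (by omega)
      have := hmin j ((hl.2.1 g hg).2 j (by omega))
      omega
  -- clamped lists
  have hcl : ∀ l, P0 adj k M W att S A b l → ∀ t < M,
      P0 adj k M W att S A b (l.map (clamp b i1 t) ++ l.map (clamp b i1 (t + 1))) := by
    intro l hl t ht
    set y1 : (V → ℕ → ℕ) → ℕ → ℕ := fun g j => if j ≤ i1 then 0 else max (g b j) t
    set y2 : (V → ℕ → ℕ) → ℕ → ℕ := fun g j => if j ≤ i1 then 0 else max (g b j) (t + 1)
    have e1 : l.map (clamp b i1 t) = l.map (fun g => Function.update g b (y1 g)) := rfl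
    have e2 : l.map (clamp b i1 (t + 1)) = l.map (fun g => Function.update g b (y2 g)) := rfl
    have hmem : ∀ g ∈ l.map (clamp b i1 t) ++ l.map (clamp b i1 (t + 1)),
        ∃ g0 ∈ l, ∃ s, (s = t ∨ s = t + 1) ∧ g = clamp b i1 s g0 := by
      intro g hg
      rcases List.mem_append.mp hg with hg | hg
      · obtain ⟨g0, hg0, rfl⟩ := List.mem_map.mp hg
        exact ⟨g0, hg0, t, Or.inl rfl, rfl⟩
      · obtain ⟨g0, hg0, rfl⟩ := List.mem_map.mp hg
        exact ⟨g0, hg0, t + 1, Or.inr rfl, rfl⟩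
    have hother : ∀ (s : ℕ) (g0 : V → ℕ → ℕ), ∀ u ∈ W.erase b, clamp b i1 s g0 u = g0 u := by
      intro s g0 u hu
      rw [clamp, Function.update_of_ne (Finset.ne_of_mem_erase hu)]
    have hb : ∀ (s : ℕ) (g0 : V → ℕ → ℕ) (j : ℕ), clamp b i1 s g0 b j =
        if j ≤ i1 then 0 else max (g0 b j) s := by
      intro s g0 j
      rw [clamp, Function.update_self]
    -- the restriction to the other vertices
    have hRC : ∀ {i v}, RC adj M (W.erase b) att l i v →
        RC adj M (W.erase b) att (l.map (clamp b i1 t) ++ l.map (clamp b i1 (t + 1))) i v := by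
      intro i v h
      have key : ∀ u ∈ W.erase b, (∀ g ∈ l, g u = Sol M i) →
          ∀ g ∈ l.map (clamp b i1 t) ++ l.map (clamp b i1 (t + 1)), g u = Sol M i := by
        intro u hu hs g hg
        obtain ⟨g0, hg0, s, -, rfl⟩ := hmem g hg
        rw [hother s g0 u hu]
        exact hs g0 hg0
      induction h with
      | base hu hs ha => exact .base hu (key _ hu hs) ha
      | step hu hs _ ha ih => exact .step hu (key _ hu hs) ih ha
    refine ⟨⟨?_, ?_, ?_⟩, ?_, ?_⟩
    · intro g hg u hu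
      obtain ⟨g0, hg0, s, -, rfl⟩ := hmem g hg
      rw [hother s g0 u hu]
      refine ⟨(hl.1.1 g0 hg0 u hu).1, fun i hi => ?_⟩
      rcases (hl.1.1 g0 hg0 u hu).2 i hi with h | ⟨v, hv, huv⟩
      · exact Or.inl h
      · exact Or.inr ⟨v, hRC hv, huv⟩
    · intro g hg g' hg' u hu j
      obtain ⟨g0, hg0, s, -, rfl⟩ := hmem g hg
      obtain ⟨g1, hg1, s', -, rfl⟩ := hmem g' hg'
      rw [hother s g0 u hu, hother s' g1 u hu]
      exact hl.1.2.1 g0 hg0 g1 hg1 u hu j
    · intro g hg c hc i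
      obtain ⟨g0, hg0, s, -, rfl⟩ := hmem g hg
      rw [hother s g0 c (hSb hc)]
      exact hl.1.2.2 g0 hg0 c hc i
    · intro g hg
      obtain ⟨g0, hg0, s, hs, rfl⟩ := hmem g hg
      obtain ⟨hgood, hsupp⟩ := hl.2.1 g0 hg0
      refine ⟨⟨fun j => ?_, ?_, fun j hj => ?_⟩, fun i hi => ?_⟩
      · rw [hb, hb]
        have := hgood.mono j
        split_ifs <;> omega
      · rw [hb]; simp
      · rw [hb, hgood.top j hj]
        split_ifs <;> omega
      · rw [hb, hb] at hi
        by_cases h1 : i + 1 ≤ i1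
        · rw [if_pos h1] at hi; omega
        · by_cases h2 : i = i1
          · rw [h2]; exact hi1
          · rw [if_neg (by omega), if_neg h1] at hi
            exact hsupp i (by omega)
    · intro g hg g' hg' j
      obtain ⟨g0, hg0, s, hs, rfl⟩ := hmem g hg
      obtain ⟨g1, hg1, s', hs', rfl⟩ := hmem g' hg'
      rw [hb, hb]
      have := hl.2.2 g0 hg0 g1 hg1 j
      split_ifs <;> omega
  -- chain of homologies
  have hchain : ∀ t ≤ M, ∃ h ∈ On (P0 adj k M W att S A b) (n + 1),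
      z = pf (clamp b i1 t) z + bd h := by
    intro t
    induction t with
    | zero =>
      intro _
      refine ⟨0, Submodule.zero_mem _, ?_⟩
      rw [map_zero, add_zero]
      have := map_mem_of (K := P0 adj k M W att S A b) (n := n)
        (pf (clamp b i1 0) + LinearMap.id)
        (⊥ : Submodule (ZMod 2) (Ch (V → ℕ → ℕ))) (by
          intro l hl _
          have hid : l.map (clamp b i1 0) = l := by
            conv_rhs => rw [← List.map_id l]
            refine List.map_congr_left fun g hg => ?_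
            rw [clamp, id]
            conv_rhs => rw [← Function.update_eq_self b g]
            congr 1
            funext j
            by_cases hj : j ≤ i1
            · rw [if_pos hj, hval0 l hl g hg j hj]
            · rw [if_neg hj]; simp
          simp only [LinearMap.add_apply, pf_single, LinearMap.id_apply, hid]
          rw [ch_add_self]
          exact Submodule.zero_mem _) hz
      simp only [LinearMap.add_apply, LinearMap.id_apply, Submodule.mem_bot] at this
      have h2 := congrArg (· + z) this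
      simp only [add_assoc, ch_add_self, add_zero, zero_add] at h2
      exact h2.symm
    | succ t ih =>
      intro ht
      obtain ⟨h, hh, hzh⟩ := ih (by omega)
      obtain ⟨e, he, hee⟩ := contiguous (isCx_P0 W att S A b) (f := clamp b i1 t)
        (g := clamp b i1 (t + 1)) (fun l hl => hcl l hl t (by omega)) hz hbd
      refine ⟨e + h, Submodule.add_mem _ he hh, ?_⟩
      rw [map_add, ← add_assoc, ← hee]
      exact hzh
  obtain ⟨h, hh, hzh⟩ := hchain M le_rfl
  refine ⟨pf (clamp b i1 M) z, ?_, h, hh, hzh⟩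
  refine pf_mem ?_ hz
  intro l hl
  refine ⟨KC_update hSb hbW (fun g j => if j ≤ i1 then 0 else max (g b j) M) hl.1, ?_⟩
  intro g hg
  obtain ⟨g0, hg0, rfl⟩ := List.mem_map.mp hg
  rw [clamp, Function.update_self]
  funext j
  have := (hl.2.1 g0 hg0).1.le j
  unfold Sol
  split_ifs
  · rfl
  · exact max_eq_right this

end Pool.Agent.Helper35.DC
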