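import Pool.Agent.Helper35.DC.Parts

/-!
# Counting: sets of at least `2k - 1` elements
-/

namespace Pool.Agent.Helper35.DC

open Finset

variable {V : Type} [Fintype V] [DecidableEq V] {k : ℕ}
variable {H : SimpleGraph V} {t : Fin k → V} {M : ℕ} {l : List (V → ℕ → ℕ)}

/-- Indicator weight. -/
def wN (N : Finset V) (u : V) : ℕ := if u ∈ N then 1 else 0

lemma wN_sum (N : Finset V) : ∑ u, wN N u = N.card := by
  simp [wN]

lemma val_wN (N : Finset V) (g : V → ℕ → ℕ) (i : Fin k) :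
    val t M (wN N) g i = ∑ u ∈ N, xv t M g u i := by
  simp [val, wN]

lemma xv_cor {g : V → ℕ → ℕ} (hg : g ∈ l) {i : Fin k} {u : V}
    (hu : u ∈ Cor H t M l i) : xv t M g u i = M := by
  rcases mem_Cor.mp hu with rfl | h
  · rw [xv, if_neg, if_pos rfl]
    rw [mem_WW]; push Not; exact ⟨i, rfl⟩
  · rw [xv, if_pos h.mem, h.sol g hg]
    simp [Sol]

lemma xv_rest {g : V → ℕ → ℕ} (hg : g ∈ l) {i : Fin k} {u : V}
    (hu : u ∉ Cor H t M l i) (h2 : ¬ (Sft H t M l u ∧ Sup l i u)) : xv t M g u i = 0 := by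
  rw [mem_Cor, not_or] at hu
  by_cases hW : u ∈ WW t
  · rw [xv, if_pos hW]
    by_cases hs : ∃ i', Sld H t M l i' u
    · obtain ⟨i', hi'⟩ := hs
      have hne : i' ≠ i := by rintro rfl; exact hu.2 hi'
      rw [hi'.sol g hg]
      unfold Sol
      split_ifs <;> omega
    · push Not at hs
      have : ¬ Sup l i u := fun h => h2 ⟨⟨hW, hs⟩, h⟩
      have h3 : ¬ g u i < g u (i + 1) := fun h => this ⟨g, hg, h⟩
      omega
  · rw [xv, if_neg hW, if_neg hu.1]

lemma val_own {g : V → ℕ → ℕ} (hg : g ∈ l) (N : Finset V)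
    (i : Fin k) : val t M (wN N) g i =
      M * (N ∩ Cor H t M l i).card + ∑ u ∈ DD H t M l N i, xv t M g u i := by
  classical
  rw [val_wN]
  have h1 : ∀ u ∈ N, xv t M g u i = (if u ∈ Cor H t M l i then M else 0) +
      (if Sft H t M l u ∧ Sup l i u then xv t M g u i else 0) := by
    intro u _
    by_cases hc : u ∈ Cor H t M l i
    · have hneg : ¬ (Sft H t M l u ∧ Sup l i u) := by
        rintro ⟨h, -⟩
        rcases mem_Cor.mp hc with rfl | h'
        · exact mem_WW.mp h.1 _ rfl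
        · exact h.2 _ h'
      rw [if_pos hc, xv_cor hg hc, if_neg hneg, add_zero]
    · rw [if_neg hc, zero_add]
      split_ifs with h
      · rfl
      · exact xv_rest hg hc h
  rw [sum_congr rfl h1, sum_add_distrib, ← sum_filter, ← sum_filter, sum_const, smul_eq_mul,
    mul_comm]
  congr 2

lemma exists_viol {D : Fin k → Finset V} {d : Fin k → ℕ}
    (h : ¬ ∀ Z : Finset (Fin k), ∑ m ∈ Z, (2 - d m) ≤ (Z.biUnion D).card) :
    ∃ Z : Finset (Fin k), ∑ m ∈ Z, d m + (Z.biUnion D).card + 1 ≤ 2 * Z.card := by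
  push Not at h
  obtain ⟨Z0, hZ0⟩ := h
  refine ⟨Z0.filter (fun m => d m < 2), ?_⟩
  have h1 : ∑ m ∈ Z0, (2 - d m) = ∑ m ∈ Z0.filter (fun m => d m < 2), (2 - d m) := by
    rw [sum_filter]
    refine sum_congr rfl fun m _ => ?_
    split_ifs <;> omega
  have h2 : ((Z0.filter (fun m => d m < 2)).biUnion D).card ≤ (Z0.biUnion D).card :=
    card_le_card (biUnion_subset_biUnion_of_subset_left _ (filter_subset _ _))
  have h3 : ∑ m ∈ Z0.filter (fun m => d m < 2), d m +
      ∑ m ∈ Z0.filter (fun m => d m < 2), (2 - d m) =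
      2 * (Z0.filter (fun m => d m < 2)).card := by
    rw [← sum_add_distrib, mul_comm, ← smul_eq_mul, ← sum_const]
    refine sum_congr rfl fun m hm => ?_
    have := (mem_filter.mp hm).2
    omega
  omega

lemma exists_perm_two {m m' a j : Fin k} (hm : m ≠ m') (ha : a ≠ j) :
    ∃ π : Equiv.Perm (Fin k), π m = a ∧ π m' = j := by
  have hb : Equiv.swap m a m' ≠ a := by
    intro h
    have : Equiv.swap m a m' = Equiv.swap m a m := by rw [h, Equiv.swap_apply_left]
    exact hm ((Equiv.swap m a).injective this).symm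
  refine ⟨Equiv.swap (Equiv.swap m a m') j * Equiv.swap m a, ?_, ?_⟩
  · rw [Equiv.Perm.mul_apply, Equiv.swap_apply_left]
    exact Equiv.swap_apply_of_ne_of_ne hb.symm ha
  · rw [Equiv.Perm.mul_apply, Equiv.swap_apply_left]

/-- The conclusion of the partition theorem. -/
def Concl (H : SimpleGraph V) (N : Fin k → Finset V) : Prop :=
  ∃ P : Fin k → Finset V, (∀ m m', m ≠ m' → Disjoint (P m) (P m')) ∧
    (∀ m, (H.induce (P m : Set V)).Preconnected) ∧ ∀ m, 2 ≤ (N m ∩ P m).card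

/-- Upper bound for the values of a violating set. -/
lemma viol_upper (N : Fin k → Finset V)
    (π : Equiv.Perm (Fin k)) (g : Fin k → V → ℕ → ℕ) (hg : ∀ m, g m ∈ l) (c : ℕ)
    (hc : ∀ u, ∑ m, xv t M (g m) u (π m) ≤ M + c) (Z : Finset (Fin k))
    (hZ : ∑ m ∈ Z, (N m ∩ Cor H t M l (π m)).card +
      (Z.biUnion fun m => DD H t M l (N m) (π m)).card + 1 ≤ 2 * Z.card) :
    ∑ m ∈ Z, val t M (wN (N m)) (g m) (π m) + M ≤ M * (2 * Z.card) + c * Fintype.card V := by
  classical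
  set DZ := Z.biUnion fun m => DD H t M l (N m) (π m) with hDZ
  have h1 : ∑ m ∈ Z, val t M (wN (N m)) (g m) (π m) =
      M * ∑ m ∈ Z, (N m ∩ Cor H t M l (π m)).card +
      ∑ m ∈ Z, ∑ u ∈ DD H t M l (N m) (π m), xv t M (g m) u (π m) := by
    rw [mul_sum, ← sum_add_distrib]
    exact sum_congr rfl fun m _ => val_own (hg m) _ _
  have h2 : ∑ m ∈ Z, ∑ u ∈ DD H t M l (N m) (π m), xv t M (g m) u (π m) ≤
      ∑ m ∈ Z, ∑ u ∈ DZ, xv t M (g m) u (π m) := by
    refine sum_le_sum fun m hm => ?_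
    refine sum_le_sum_of_subset ?_
    intro u hu
    rw [hDZ, mem_biUnion]
    exact ⟨m, hm, hu⟩
  have h3 : ∑ m ∈ Z, ∑ u ∈ DZ, xv t M (g m) u (π m) ≤ ∑ u ∈ DZ, (M + c) := by
    rw [sum_comm]
    refine sum_le_sum fun u _ => ?_
    exact (sum_le_sum_of_subset (subset_univ Z)).trans (hc u)
  rw [sum_const, smul_eq_mul] at h3
  have h4 : DZ.card ≤ Fintype.card V := card_le_univ _
  have h5 : DZ.card * c ≤ c * Fintype.card V := by
    rw [mul_comm]; exact Nat.mul_le_mul_left _ h4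
  have h6 : M * (∑ m ∈ Z, (N m ∩ Cor H t M l (π m)).card + DZ.card + 1) ≤ M * (2 * Z.card) :=
    Nat.mul_le_mul_left _ hZ
  have h7 : DZ.card * (M + c) = M * DZ.card + DZ.card * c := by ring
  have h8 : M * (∑ m ∈ Z, (N m ∩ Cor H t M l (π m)).card + DZ.card + 1) =
    M * ∑ m ∈ Z, (N m ∩ Cor H t M l (π m)).card + M * DZ.card + M := by ring
  omega

/-- Loss: the value of the players that do not want the vertex. -/
def loss (t : Fin k → V) (M : ℕ) (N : Fin k → Finset V) (π : Equiv.Perm (Fin k))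
    (g : V → ℕ → ℕ) (u : V) : ℕ :=
  ∑ m, if u ∈ N m then 0 else xv t M g u (π m)

lemma viol_loss (N : Fin k → Finset V)
    (π : Equiv.Perm (Fin k)) (g : V → ℕ → ℕ) (hg : g ∈ l)
    (hc : ∀ u, ∑ m, xv t M g u (π m) = M)
    (hZ : ∑ m, (N m ∩ Cor H t M l (π m)).card +
      (univ.biUnion fun m => DD H t M l (N m) (π m)).card + 1 ≤ 2 * k) :
    ∑ m, val t M (wN (N m)) g (π m) + M +
      ∑ u ∈ univ.biUnion (fun m => DD H t M l (N m) (π m)), loss t M N π g u ≤ M * (2 * k) := by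
  classical
  set DZ := univ.biUnion fun m => DD H t M l (N m) (π m) with hDZ
  have h1 : ∑ m, val t M (wN (N m)) g (π m) =
      M * ∑ m, (N m ∩ Cor H t M l (π m)).card +
      ∑ m, ∑ u ∈ DD H t M l (N m) (π m), xv t M g u (π m) := by
    rw [mul_sum, ← sum_add_distrib]
    exact sum_congr rfl fun m _ => val_own hg _ _
  have h2 : ∑ m, ∑ u ∈ DD H t M l (N m) (π m), xv t M g u (π m) ≤
      ∑ m, ∑ u ∈ DZ, (if u ∈ N m then xv t M g u (π m) else 0) := by
    refine sum_le_sum fun m hm => ?_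
    have h21 : ∑ u ∈ DD H t M l (N m) (π m), xv t M g u (π m) =
        ∑ u ∈ DD H t M l (N m) (π m), (if u ∈ N m then xv t M g u (π m) else 0) := by
      refine sum_congr rfl fun u hu => ?_
      rw [if_pos (mem_DD.mp hu).1]
    rw [h21]
    refine sum_le_sum_of_subset ?_
    intro u hu
    rw [hDZ, mem_biUnion]
    exact ⟨m, mem_univ _, hu⟩
  have h3 : ∑ m, ∑ u ∈ DZ, (if u ∈ N m then xv t M g u (π m) else 0) +
      ∑ u ∈ DZ, loss t M N π g u = DZ.card * M := by
    rw [sum_comm, ← sum_add_distrib, ← smul_eq_mul, ← sum_const]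
    refine sum_congr rfl fun u _ => ?_
    rw [loss, ← sum_add_distrib]
    refine Eq.trans (sum_congr rfl fun m _ => ?_) (hc u)
    split_ifs <;> simp
  have h6 : M * (∑ m, (N m ∩ Cor H t M l (π m)).card + DZ.card + 1) ≤ M * (2 * k) :=
    Nat.mul_le_mul_left _ hZ
  have h8 : M * (∑ m, (N m ∩ Cor H t M l (π m)).card + DZ.card + 1) =
    M * ∑ m, (N m ∩ Cor H t M l (π m)).card + DZ.card * M + M := by ring
  omega

end Pool.Agent.Helper35.DC
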