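import Mathlib

/-!
# Connectivity and disjoint cycles through specified vertices: definitions
-/

namespace Pool.Agent.Helper35.DC

section defs

variable {V : Type} [Fintype V] [DecidableEq V]

/-- `c`-connected graphs: more than `c` vertices, and connected after the deletion of fewer than
`c` vertices. -/
def IsConn (G : SimpleGraph V) (c : ℕ) : Prop :=
  c < Fintype.card V ∧ ∀ S : Finset V, S.card < c → (G.induce {v | v ∉ S}).Connected

/-- Property `S_k`: every `k` vertices lie on `k` disjoint cycles, one on each. -/
def PropS (G : SimpleGraph V) (k : ℕ) : Prop :=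
  k ≤ Fintype.card V ∧ ∀ X : Finset V, X.card = k →
    ∃ (v : Fin k → V) (C : ∀ i, G.Walk (v i) (v i)), (∀ i, (C i).IsCycle) ∧
      (∀ i j, i ≠ j → List.Disjoint (C i).support (C j).support) ∧
      ∀ i, ((C i).support.toFinset ∩ X).card = 1

end defs

/-- `c`-connectedness forces property `S_k` in all large graphs. -/
def Forces (k c : ℕ) : Prop :=
  ∃ n0 : ℕ, ∀ (V : Type) [Fintype V] [DecidableEq V] (G : SimpleGraph V),
    IsConn G c → n0 ≤ Fintype.card V → PropS G k

/-- `c` is the value `f(k)`. -/
def IsF (k c : ℕ) : Prop := IsLeast {c | 1 ≤ c ∧ Forces k c} c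

end Pool.Agent.Helper35.DC
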