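import Pool.Agent.Helper35.DC.PartsMain
import Pool.Agent.Helper35.DC.Defs

/-!
# Disjoint cycles through specified vertices
-/

namespace Pool.Agent.Helper35.DC

open Finset

section upper

variable {V : Type} [Fintype V] [DecidableEq V] {G : SimpleGraph V}

lemma no_sep {c : ℕ} (h : IsConn G c) (A S : Finset V) (hA : A.Nonempty)
    (hAS : Disjoint A S) (hS : S.card < c) (hout : ∃ y, y ∉ A ∧ y ∉ S)
    (hcl : ∀ a ∈ A, ∀ b, G.Adj a b → b ∈ A ∨ b ∈ S) : False := by
  obtain ⟨a0, ha0⟩ := hA
  obtain ⟨y, hyA, hyS⟩ := hout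
  have ha0S : a0 ∉ S := fun h => disjoint_left.mp hAS ha0 h
  have hreach := (h.2 S hS).preconnected ⟨a0, ha0S⟩ ⟨y, hyS⟩
  rw [SimpleGraph.reachable_iff_reflTransGen] at hreach
  have key : ∀ b : {v | v ∉ S}, Relation.ReflTransGen (G.induce {v | v ∉ S}).Adj ⟨a0, ha0S⟩ b →
      b.1 ∈ A := by
    intro b hb
    induction hb with
    | refl => exact ha0
    | @tail b c _ hbc ih =>
      have hadj : G.Adj b.1 c.1 := hbc
      rcases hcl b.1 ih c.1 hadj with h | h
      · exact h
      · exact absurd h c.2
  exact hyA (key _ hreach)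

/-- A cycle through `x` from a connected set containing two neighbours. -/
lemma cycle_of {W : Type} {K : SimpleGraph W} (f : K →g G) (hf : Function.Injective f) {x : V}
    (hx : ∀ w, x ≠ f w) {a b : W} (hab : a ≠ b) (hr : K.Reachable a b) (ha : G.Adj x (f a))
    (hb : G.Adj x (f b)) :
    ∃ C : G.Walk x x, C.IsCycle ∧ ∀ y ∈ C.support, y = x ∨ ∃ w, y = f w := by
  classical
  obtain ⟨p, hp⟩ := hr.exists_isPath
  have hq : (p.map f).IsPath := hp.map hf
  have hsupp : ∀ y ∈ (p.map f).support, ∃ w, y = f w := by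
    intro y hy
    rw [SimpleGraph.Walk.support_map, List.mem_map] at hy
    obtain ⟨w, -, rfl⟩ := hy
    exact ⟨w, rfl⟩
  have hxq : x ∉ (p.map f).support := by
    intro h
    obtain ⟨w, hw⟩ := hsupp x h
    exact hx w hw
  have hq' : ((p.map f).concat hb.symm).IsPath := hq.concat hxq hb.symm
  refine ⟨SimpleGraph.Walk.cons ha ((p.map f).concat hb.symm), ?_, ?_⟩
  · rw [SimpleGraph.Walk.cons_isCycle_iff]
    refine ⟨hq', ?_⟩
    rw [SimpleGraph.Walk.edges_concat, List.concat_eq_append, List.mem_append]
    rintro (h | h)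
    · exact hxq (SimpleGraph.Walk.fst_mem_support_of_mem_edges _ h)
    · rw [List.mem_singleton, Sym2.eq_iff] at h
      rcases h with ⟨h1, -⟩ | ⟨-, h1⟩
      · exact hx _ h1
      · exact hab (hf h1)
  · intro y hy
    rw [SimpleGraph.Walk.support_cons, List.mem_cons, SimpleGraph.Walk.support_concat,
      List.mem_append] at hy
    rcases hy with h | h | h
    · exact Or.inl h
    · exact Or.inr (hsupp y h)
    · exact Or.inl (by simpa using h)

variable (G) in
/-- Neighbours outside `X`. -/
noncomputable def NX (X : Finset V) (x : V) : Finset {v | v ∉ X} :=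
  open Classical in univ.filter (fun u => G.Adj x u.1)

lemma rob_of {X : Finset V} {c k : ℕ} (h : IsConn G c) (hc : X.card + k ≤ c) :
    Rob (G.induce {v | v ∉ X}) k := by
  intro T hT
  set S : Finset V := X ∪ T.map ⟨Subtype.val, Subtype.val_injective⟩ with hS
  have hScard : S.card < c := by
    have h1 : S.card ≤ X.card + (T.map ⟨Subtype.val, Subtype.val_injective⟩).card :=
      card_union_le _ _
    rw [card_map] at h1
    omega
  have hpre := (h.2 S hScard).preconnected
  have hmem : ∀ v : {v | v ∉ S}, v.1 ∉ X ∧ ∀ hv : v.1 ∉ X, (⟨v.1, hv⟩ : {v | v ∉ X}) ∉ T := by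
    intro v
    have hv : v.1 ∉ X ∪ T.map ⟨Subtype.val, Subtype.val_injective⟩ := v.2
    rw [mem_union, not_or] at hv
    refine ⟨hv.1, fun hvX hvT => hv.2 ?_⟩
    rw [mem_map]
    exact ⟨_, hvT, rfl⟩
  let f : G.induce {v | v ∉ S} →g (G.induce {v | v ∉ X}).induce {v | v ∉ T} :=
    { toFun := fun v => ⟨⟨v.1, (hmem v).1⟩, (hmem v).2 _⟩
      map_rel' := fun {a b} hab => hab }
  refine hpre.map f ?_
  rintro ⟨⟨v, hvX⟩, hvT⟩
  refine ⟨⟨v, ?_⟩, rfl⟩
  change v ∉ S
  rw [hS, mem_union, not_or]
  refine ⟨hvX, fun h => ?_⟩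
  obtain ⟨w, hw, hwv⟩ := mem_map.mp h
  have : w = ⟨v, hvX⟩ := Subtype.ext hwv
  exact hvT (this ▸ hw)

lemma card_NX_union {X : Finset V} {c : ℕ} (h : IsConn G c) (Z : Finset V) (hZX : Z ⊆ X)
    (hZ : Z.Nonempty) (hlt : X.card + (Z.biUnion fun x => (NX G X x)).card < c + Z.card) :
    Fintype.card V ≤ X.card + (Z.biUnion fun x => (NX G X x)).card := by
  by_contra hcon
  push Not at hcon
  set U : Finset V := (Z.biUnion fun x => (NX G X x)).map ⟨Subtype.val, Subtype.val_injective⟩
    with hU
  have hUX : Disjoint X U := by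
    rw [disjoint_left]
    intro u hu hu'
    obtain ⟨w, -, rfl⟩ := mem_map.mp hu'
    exact w.2 hu
  refine no_sep h Z ((X \ Z) ∪ U) hZ ?_ ?_ ?_ ?_
  · rw [disjoint_left]
    intro u hu hu'
    rw [mem_union, mem_sdiff] at hu'
    rcases hu' with h1 | h1
    · exact h1.2 hu
    · exact disjoint_left.mp hUX (hZX hu) h1
  · have h1 := card_union_le (X \ Z) U
    have h2 := card_sdiff_add_card_eq_card hZX
    have h3 : U.card = (Z.biUnion fun x => (NX G X x)).card := card_map _
    omega
  · by_contra hout
    push Not at hout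
    have h1 : (univ : Finset V) ⊆ X ∪ U := by
      intro y _
      by_cases hy : y ∈ X
      · exact mem_union_left _ hy
      · have := hout y (fun hyZ => hy (hZX hyZ))
        rw [mem_union, mem_sdiff] at this
        rcases this with h | h
        · exact absurd h.1 hy
        · exact mem_union_right _ h
    have h2 := (card_le_card h1).trans (card_union_le X U)
    have h3 : U.card = (Z.biUnion fun x => (NX G X x)).card := card_map _
    rw [card_univ] at h2
    omega
  · intro a ha b hab
    by_cases hbX : b ∈ X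
    · by_cases hbZ : b ∈ Z
      · exact Or.inl hbZ
      · exact Or.inr (mem_union_left _ (mem_sdiff.mpr ⟨hbX, hbZ⟩))
    · refine Or.inr (mem_union_right _ ?_)
      rw [hU, mem_map]
      refine ⟨⟨b, hbX⟩, ?_, rfl⟩
      rw [mem_biUnion]
      exact ⟨a, ha, by simp [NX, hab]⟩

/-- Every `(3k-2)`-connected graph with at least `3k` vertices has property `S_k`. -/
theorem propS_of_conn {k : ℕ} (hk : 2 ≤ k) (h : IsConn G (3 * k - 2))
    (hV : 3 * k ≤ Fintype.card V) : PropS G k := by
  classical
  refine ⟨by omega, fun X hX => ?_⟩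
  set x : Fin k → V := fun i => ((X.equivFinOfCardEq hX).symm i : V) with hx
  have hxinj : Function.Injective x := fun i j h =>
    (X.equivFinOfCardEq hX).symm.injective (Subtype.ext h)
  have hxX : ∀ i, x i ∈ X := fun i => ((X.equivFinOfCardEq hX).symm i).2
  have hN : ∀ m, 2 * k ≤ (NX G X (x m)).card + 1 := by
    intro m
    by_contra hcon
    have h1 := card_NX_union h {x m} (by simpa using hxX m) (by simp)
      (by rw [singleton_biUnion, card_singleton, hX]; omega)
    rw [singleton_biUnion, hX] at h1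
    omega
  have hXim : X = univ.image x := by
    ext u
    rw [mem_image]
    constructor
    · intro hu
      exact ⟨X.equivFinOfCardEq hX ⟨u, hu⟩, mem_univ _, by simp [hx]⟩
    · rintro ⟨i, -, rfl⟩
      exact hxX i
  have hU : 2 * k ≤ (univ.biUnion fun m => NX G X (x m)).card := by
    by_contra hcon
    have e : (X.biUnion fun x => NX G X x) = univ.biUnion fun m => NX G X (x m) := by
      ext u
      simp only [mem_biUnion, mem_univ, true_and]
      constructor
      · rintro ⟨y, hy, hu⟩
        rw [hXim, mem_image] at hy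
        obtain ⟨i, -, rfl⟩ := hy
        exact ⟨i, hu⟩
      · rintro ⟨i, hu⟩
        exact ⟨x i, hxX i, hu⟩
    have h1 := card_NX_union h X (subset_refl X) (card_pos.mp (by omega))
      (by rw [e, hX]; omega)
    rw [e, hX] at h1
    omega
  obtain ⟨P, hP1, hP2, hP3⟩ := exists_parts hk (rob_of h (by omega))
    (fun m => NX G X (x m)) hN hU
  have hex : ∀ m, ∃ C : G.Walk (x m) (x m), C.IsCycle ∧
      ∀ y ∈ C.support, y = x m ∨ ∃ w ∈ P m, y = w.1 := by
    intro m
    obtain ⟨a, ha, b, hb, hab⟩ := one_lt_card.mp (show 1 < (NX G X (x m) ∩ P m).card from hP3 m)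
    rw [mem_inter] at ha hb
    have haN : G.Adj (x m) a.1 := by simpa [NX] using ha.1
    have hbN : G.Adj (x m) b.1 := by simpa [NX] using hb.1
    let f : (G.induce {v | v ∉ X}).induce (P m : Set {v | v ∉ X}) →g G :=
      { toFun := fun w => w.1.1
        map_rel' := fun {a b} hab => hab }
    have hf : Function.Injective f := fun w w' h => Subtype.ext (Subtype.ext h)
    obtain ⟨C, hC, hCs⟩ := cycle_of f hf (x := x m)
      (fun w h => w.1.2 (by change w.1.1 ∈ X; have : x m = w.1.1 := h; rw [← this]; exact hxX m))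
      (a := ⟨a, ha.2⟩) (b := ⟨b, hb.2⟩) (fun h => hab (congrArg Subtype.val h))
      (hP2 m _ _) haN hbN
    refine ⟨C, hC, fun y hy => ?_⟩
    rcases hCs y hy with h | ⟨w, hw⟩
    · exact Or.inl h
    · exact Or.inr ⟨w.1, w.2, hw⟩
  choose C hC hCs using hex
  refine ⟨x, C, hC, ?_, ?_⟩
  · intro i j hij y hyi hyj
    rcases hCs i y hyi with rfl | ⟨w, hw, rfl⟩
    · rcases hCs j _ hyj with h | ⟨w, -, h⟩
      · exact hij (hxinj h)
      · exact w.2 (h ▸ hxX i)
    · rcases hCs j _ hyj with h | ⟨w', hw', h⟩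
      · exact w.2 (h.symm ▸ hxX j)
      · have : w = w' := Subtype.ext h
        subst this
        exact disjoint_left.mp (hP1 i j hij) hw hw'
  · intro i
    have : (C i).support.toFinset ∩ X = {x i} := by
      ext y
      rw [mem_inter, List.mem_toFinset, mem_singleton]
      constructor
      · rintro ⟨hy, hyX⟩
        rcases hCs i y hy with h | ⟨w, -, rfl⟩
        · exact h
        · exact absurd hyX w.2
      · rintro rfl
        exact ⟨(C i).start_mem_support, hxX i⟩
    rw [this, card_singleton]

/-- Every `2`-connected graph has property `S_1`. -/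
theorem propS_one (h : IsConn G 2) : PropS G 1 := by
  classical
  refine ⟨by have := h.1; omega, fun X hX => ?_⟩
  obtain ⟨x, rfl⟩ := card_eq_one.mp hX
  have hN : 2 ≤ (NX G {x} x).card := by
    by_contra hcon
    have h1 := card_NX_union h {x} (subset_refl _) (by simp)
      (by rw [singleton_biUnion, card_singleton]; omega)
    rw [singleton_biUnion, card_singleton] at h1
    have := h.1
    omega
  obtain ⟨a, ha, b, hb, hab⟩ := one_lt_card.mp (show 1 < (NX G {x} x).card from hN)
  have haN : G.Adj x a.1 := by simpa [NX] using ha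
  have hbN : G.Adj x b.1 := by simpa [NX] using hb
  have hpre := (h.2 {x} (by simp)).preconnected
  let f : (G.induce {v | v ∉ ({x} : Finset V)}) →g G :=
    { toFun := fun w => w.1
      map_rel' := fun {a b} hab => hab }
  have hf : Function.Injective f := fun w w' h => Subtype.ext h
  obtain ⟨C, hC, hCs⟩ := cycle_of f hf (x := x)
    (fun w h => w.2 (by change w.1 ∈ ({x} : Finset V); have : x = w.1 := h; simp [← this]))
    (a := a) (b := b) hab (hpre a b) haN hbN
  refine ⟨fun _ => x, fun _ => C, fun _ => hC, ?_, ?_⟩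
  · intro i j hij
    exact absurd (Subsingleton.elim i j) hij
  · intro i
    have : C.support.toFinset ∩ {x} = {x} := by
      rw [inter_eq_right, singleton_subset_iff, List.mem_toFinset]
      exact C.start_mem_support
    rw [this, card_singleton]

end upper

end Pool.Agent.Helper35.DC
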