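import Pool.Agent.Helper35.DC.GraphPart

/-!
# The join of a clique with an independent set
-/

namespace Pool.Agent.Helper35.DC

open Finset

/-- The join of a clique on `a` vertices with an independent set on `b` vertices. -/
def CI (a b : ℕ) : SimpleGraph (Fin a ⊕ Fin b) where
  Adj u v := u ≠ v ∧ (u.isLeft ∨ v.isLeft)
  symm := ⟨fun _ _ h => ⟨h.1.symm, h.2.symm⟩⟩
  loopless := ⟨fun _ h => h.1 rfl⟩

lemma CI_conn (a b c : ℕ) (hca : c ≤ a) (hb : 0 < b) : IsConn (CI a b) c := by
  classical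
  refine ⟨by simp; omega, fun S hS => ?_⟩
  have hex : ∃ z : Fin a, (Sum.inl z : Fin a ⊕ Fin b) ∉ S := by
    by_contra hcon
    push Not at hcon
    have h1 : (univ : Finset (Fin a)).map ⟨Sum.inl, Sum.inl_injective⟩ ⊆ S := by
      intro u hu
      obtain ⟨z, -, rfl⟩ := mem_map.mp hu
      exact hcon z
    have h2 := card_le_card h1
    rw [card_map, card_univ, Fintype.card_fin] at h2
    omega
  obtain ⟨z, hz⟩ := hex
  have hne : Nonempty {v | v ∉ S} := ⟨⟨Sum.inl z, hz⟩⟩
  refine SimpleGraph.Connected.mk ?_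
  have key : ∀ u : {v | v ∉ S}, ((CI a b).induce {v | v ∉ S}).Reachable u ⟨Sum.inl z, hz⟩ := by
    intro u
    by_cases hu : u = ⟨Sum.inl z, hz⟩
    · rw [hu]
    · refine SimpleGraph.Adj.reachable ?_
      change (CI a b).Adj u.1 (Sum.inl z)
      exact ⟨fun h => hu (Subtype.ext h), Or.inr rfl⟩
  exact fun u v => (key u).trans (key v).symm

lemma cycle_two_left {a b : ℕ} {u : Fin a ⊕ Fin b} (C : (CI a b).Walk u u) (hC : C.IsCycle) :
    2 ≤ (C.support.toFinset.filter (fun v => v.isLeft = true)).card := by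
  classical
  have hex : ∃ y ∈ C.support, ∀ z ∈ C.toSubgraph.neighborSet y, z.isLeft = true := by
    by_cases h : ∃ y ∈ C.support, y.isLeft = false
    · obtain ⟨y, hy, hyl⟩ := h
      refine ⟨y, hy, fun z hz => ?_⟩
      have hadj : (CI a b).Adj y z := C.toSubgraph.adj_sub hz
      rcases hadj.2 with h | h
      · rw [hyl] at h; exact absurd h (by simp)
      · exact h
    · push Not at h
      refine ⟨u, C.start_mem_support, fun z hz => ?_⟩
      have hz' : z ∈ C.toSubgraph.verts := C.toSubgraph.edge_vert (C.toSubgraph.adj_symm hz)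
      rw [SimpleGraph.Walk.mem_verts_toSubgraph] at hz'
      have := h z hz'
      simpa using this
  obtain ⟨y, hy, hyn⟩ := hex
  have h2 := hC.ncard_neighborSet_toSubgraph_eq_two hy
  rw [← h2]
  have hsub : C.toSubgraph.neighborSet y ⊆
      ((C.support.toFinset.filter (fun v => v.isLeft = true) : Finset _) : Set _) := by
    intro z hz
    rw [mem_coe, mem_filter, List.mem_toFinset]
    have hz' : z ∈ C.toSubgraph.verts := C.toSubgraph.edge_vert (C.toSubgraph.adj_symm hz)
    rw [SimpleGraph.Walk.mem_verts_toSubgraph] at hz'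
    exact ⟨hz', hyn z hz⟩
  have := Set.ncard_le_ncard hsub (finite_toSet _)
  rwa [Set.ncard_coe_finset] at this

lemma CI_not_propS {k b : ℕ} (hk : 1 ≤ k) (hkb : k ≤ b) : ¬ PropS (CI (2 * k - 1) b) k := by
  classical
  rintro ⟨hcard, h⟩
  obtain ⟨X, -, hX⟩ := exists_subset_card_eq
    (show k ≤ (univ : Finset (Fin (2 * k - 1) ⊕ Fin b)).card from hcard)
  obtain ⟨v, C, hC, hdis, -⟩ := h X hX
  have h1 : ∑ i : Fin k, 2 ≤
      ∑ i, ((C i).support.toFinset.filter (fun v => v.isLeft = true)).card :=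
    sum_le_sum fun i _ => cycle_two_left (C i) (hC i)
  have h2 : (univ.biUnion fun i =>
      (C i).support.toFinset.filter (fun v => v.isLeft = true)).card =
      ∑ i, ((C i).support.toFinset.filter (fun v => v.isLeft = true)).card := by
    refine card_biUnion ?_
    intro i _ j _ hij
    rw [Function.onFun, disjoint_left]
    intro z hz hz'
    rw [mem_filter, List.mem_toFinset] at hz hz'
    exact hdis i j hij hz.1 hz'.1
  have h3 : (univ.biUnion fun i =>
      (C i).support.toFinset.filter (fun v => v.isLeft = true)) ⊆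
      (univ : Finset (Fin (2 * k - 1))).map ⟨Sum.inl, Sum.inl_injective⟩ := by
    intro z hz
    rw [mem_biUnion] at hz
    obtain ⟨i, -, hz⟩ := hz
    rw [mem_filter] at hz
    rw [mem_map]
    rcases z with z | z
    · exact ⟨z, mem_univ _, rfl⟩
    · simp at hz
  have h4 := card_le_card h3
  rw [h2, card_map, card_univ, Fintype.card_fin] at h4
  simp only [sum_const, card_univ, Fintype.card_fin, smul_eq_mul] at h1
  omega

lemma not_forces {k c : ℕ} (hk : 1 ≤ k) (hc : 1 ≤ c) (hck : c < 2 * k) : ¬ Forces k c := by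
  rintro ⟨n0, h⟩
  refine CI_not_propS hk (b := n0 + k) (by omega) ?_
  refine h _ (CI (2 * k - 1) (n0 + k)) (CI_conn _ _ _ (by omega) (by omega)) ?_
  rw [Fintype.card_sum, Fintype.card_fin, Fintype.card_fin]
  omega

lemma forces_of {k : ℕ} (hk : 2 ≤ k) : Forces k (3 * k - 2) :=
  ⟨3 * k, fun _ _ _ _ h hV => propS_of_conn hk h hV⟩

/-- The bounds for `f`. -/
theorem f_bounds {k : ℕ} (hk : 2 ≤ k) : ∃ c, IsF k c ∧ 2 * k ≤ c ∧ c ≤ 3 * k - 2 := by
  classical
  have hex : ∃ c, 1 ≤ c ∧ Forces k c := ⟨3 * k - 2, by omega, forces_of hk⟩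
  refine ⟨Nat.find hex, ⟨Nat.find_spec hex, fun c hc => Nat.find_min' hex hc⟩, ?_, ?_⟩
  · by_contra hcon
    exact not_forces (by omega) (Nat.find_spec hex).1 (by omega) (Nat.find_spec hex).2
  · exact Nat.find_min' hex ⟨by omega, forces_of hk⟩

theorem f_two : IsF 2 4 := by
  obtain ⟨c, hc, h1, h2⟩ := f_bounds (k := 2) le_rfl
  have : c = 4 := by omega
  exact this ▸ hc

theorem f_one : IsF 1 2 := by
  refine ⟨⟨by omega, 0, fun V _ _ G h _ => propS_one h⟩, ?_⟩
  rintro c ⟨h1, h2⟩
  by_contra hcon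
  exact not_forces le_rfl h1 (by omega) h2

end Pool.Agent.Helper35.DC
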