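import Pool.Agent.Helper35.DC.Chains

/-!
# A colourful Sperner lemma for acyclic complexes

`k` players label the vertices of a complex; there is a simplex and a choice of a vertex of this
simplex for each player such that the labels are pairwise different.
-/

namespace Pool.Agent.Helper35.DC

open Finsupp

variable {α ι : Type} [DecidableEq ι]

/-- Number (mod 2) of lists whose entries are exactly the elements of `I`, without repetition. -/
noncomputable def th (I : Finset ι) : Ch ι →ₗ[ZMod 2] ZMod 2 :=
  Finsupp.linearCombination _ (fun l : List ι => if l.Nodup ∧ l.toFinset = I then (1 : ZMod 2) else 0)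

lemma th_single (I : Finset ι) (l : List ι) :
    th I (single l 1) = if l.Nodup ∧ l.toFinset = I then (1 : ZMod 2) else 0 := by
  simp [th]

lemma th_cn (I : Finset ι) (a : ι) (c : Ch ι) :
    th I (cn a c) = if a ∈ I then th (I.erase a) c else 0 := by
  have h : th I ∘ₗ cn a = (if a ∈ I then (1 : ZMod 2) else 0) • th (I.erase a) := by
    refine ch_ext fun l => ?_
    simp only [LinearMap.comp_apply, cn_single, LinearMap.smul_apply, th_single, smul_eq_mul,
      List.nodup_cons, List.toFinset_cons]
    by_cases ha : a ∈ I
    · rw [if_pos ha, one_mul]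
      refine if_congr ?_ rfl rfl
      constructor
      · rintro ⟨⟨h1, h2⟩, h3⟩
        refine ⟨h2, ?_⟩
        rw [← h3, Finset.erase_insert]
        simpa using h1
      · rintro ⟨h1, h2⟩
        refine ⟨⟨?_, h1⟩, ?_⟩
        · intro h
          have : a ∈ l.toFinset := by simpa using h
          rw [h2] at this
          simp at this
        · rw [h2, Finset.insert_erase ha]
    · rw [if_neg ha, zero_mul, if_neg]
      rintro ⟨-, h3⟩
      exact ha (h3 ▸ Finset.mem_insert_self a _)
  have := LinearMap.congr_fun h c
  simp only [LinearMap.comp_apply, LinearMap.smul_apply, smul_eq_mul] at this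
  rw [this]
  split_ifs <;> simp

lemma th_dl [Fintype ι] (l : List ι) : ∀ I : Finset ι,
    th I (dl l) = ∑ j ∈ Iᶜ, th (insert j I) (single l 1) := by
  induction l with
  | nil =>
    intro I
    rw [dl, map_zero]
    refine (Finset.sum_eq_zero fun j _ => ?_).symm
    rw [th_single, if_neg]
    rintro ⟨-, h⟩
    have : j ∈ (∅ : Finset ι) := by
      have h2 : (∅ : Finset ι) = insert j I := by simpa using h
      rw [h2]; exact Finset.mem_insert_self _ _
    simp at this
  | cons a l ih =>
    intro I
    have hc : ∀ J : Finset ι, th J (single (a :: l) 1) = if a ∈ J then th (J.erase a) (single l 1)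
        else 0 := by
      intro J
      rw [← cn_single, th_cn]
    rw [dl, map_add, th_cn]
    simp_rw [hc]
    by_cases ha : a ∈ I
    · rw [if_pos ha, ih]
      have h1 : (I.erase a)ᶜ = insert a Iᶜ := by
        ext x
        simp only [Finset.mem_compl, Finset.mem_erase, Finset.mem_insert]
        tauto
      rw [h1, Finset.sum_insert (by simp [ha]), Finset.insert_erase ha, ← add_assoc,
        CharTwo.add_self_eq_zero, zero_add]
      refine Finset.sum_congr rfl fun j hj => ?_
      have hja : j ≠ a := by
        rintro rfl
        exact (Finset.mem_compl.mp hj) ha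
      rw [if_pos (Finset.mem_insert_of_mem ha), Finset.erase_insert_of_ne hja]
    · rw [if_neg ha, add_zero]
      rw [Finset.sum_eq_single a]
      · rw [if_pos (Finset.mem_insert_self _ _), Finset.erase_insert ha]
      · intro j _ hja
        rw [if_neg]
        rw [Finset.mem_insert, not_or]
        exact ⟨Ne.symm hja, ha⟩
      · intro h
        simp [ha] at h

lemma th_bd [Fintype ι] (I : Finset ι) (c : Ch ι) :
    th I (bd c) = ∑ j ∈ Iᶜ, th (insert j I) c := by
  have : th I ∘ₗ bd = ∑ j ∈ Iᶜ, th (insert j I) := by
    refine ch_ext fun l => ?_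
    rw [LinearMap.comp_apply, bd_single, th_dl, LinearMap.sum_apply]
  have := LinearMap.congr_fun this c
  rwa [LinearMap.comp_apply, LinearMap.sum_apply] at this

/-- The labelling map on chains (through the barycentric subdivision). -/
noncomputable def lam (lab : List α → ι) : ℕ → (Ch α →ₗ[ZMod 2] Ch ι)
  | 0 => Finsupp.linearCombination _ (fun _ => single [] 1)
  | n + 1 => Finsupp.linearCombination _ (fun l => cn (lab l) (lam lab n (dl l)))

lemma lam_zero_single (lab : List α → ι) (l : List α) :
    lam lab 0 (single l 1) = single [] 1 := by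
  simp [lam]

lemma lam_succ_single (lab : List α → ι) (n : ℕ) (l : List α) :
    lam lab (n + 1) (single l 1) = cn (lab l) (lam lab n (dl l)) := by
  simp [lam]

lemma bd_lam (lab : List α → ι) : ∀ (n : ℕ) (c : Ch α),
    bd (lam lab (n + 1) c) = lam lab n (bd c) := by
  intro n
  induction n with
  | zero =>
    intro c
    have : bd ∘ₗ lam lab (0 + 1) = lam lab 0 ∘ₗ bd := by
      refine ch_ext fun l => ?_
      rw [LinearMap.comp_apply, LinearMap.comp_apply, lam_succ_single, bd_cn, bd_single]
      have h0 : ∀ c : Ch α, bd (lam lab 0 c) = 0 := by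
        intro c
        have : bd ∘ₗ lam lab 0 = 0 := by
          refine ch_ext fun l => ?_
          rw [LinearMap.comp_apply, lam_zero_single, bd_single]
          rfl
        exact LinearMap.congr_fun this c
      rw [h0, map_zero, add_zero]
    exact LinearMap.congr_fun this c
  | succ n ih =>
    intro c
    have : bd ∘ₗ lam lab (n + 1 + 1) = lam lab (n + 1) ∘ₗ bd := by
      refine ch_ext fun l => ?_
      rw [LinearMap.comp_apply, LinearMap.comp_apply, lam_succ_single, bd_cn, bd_single, ih,
        bd_dl, map_zero, map_zero, add_zero]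
    exact LinearMap.congr_fun this c

lemma lam_mem (lab : List α → ι) {K : List α → Prop} (hK : IsCx K) (J : Finset ι)
    (hlab : ∀ l, K l → l ≠ [] → lab l ∈ J) : ∀ (n : ℕ) (c : Ch α), c ∈ On K n →
      lam lab n c ∈ On (fun L => ∀ x ∈ L, x ∈ J) n := by
  intro n
  induction n with
  | zero =>
    intro c hc
    refine map_mem_of _ _ ?_ hc
    intro l _ _
    rw [lam_zero_single]
    exact single_mem_On (by simp) rfl 1
  | succ n ih =>
    intro c hc
    refine map_mem_of _ _ ?_ hc
    intro l hl hlen
    rw [lam_succ_single]
    refine cn_mem ?_ (ih _ (On_mono (fun l' hl' => hK l l' hl' hl) n (dl_mem l n hlen)))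
    intro L hL x hx
    rcases List.mem_cons.mp hx with rfl | hx
    · exact hlab l hl (by rintro rfl; simp at hlen)
    · exact hL x hx

lemma th_eq_zero {I J : Finset ι} {i : ι} (hi : i ∈ I) (hiJ : i ∉ J) {n : ℕ} {d : Ch ι}
    (hd : d ∈ On (fun L => ∀ x ∈ L, x ∈ J) n) : th I d = 0 := by
  have := map_mem_of (th I) (⊥ : Submodule (ZMod 2) (ZMod 2)) (by
    intro l hl _
    rw [th_single, if_neg]
    · exact Submodule.zero_mem _
    · rintro ⟨-, rfl⟩
      exact hiJ (hl i (by simpa using hi))) hd
  simpa using this

/-- Chains filling the faces. -/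
lemma exists_chains [Fintype ι] (K : Finset ι → List α → Prop)
    (hmono : ∀ I J, I ⊆ J → ∀ l, K I l → K J l) (hnil : K ∅ [])
    (hac : ∀ I, Acyc (K I) I.card) : ∀ n : ℕ, ∃ c : Finset ι → Ch α, c ∅ = single [] 1 ∧
      ∀ I : Finset ι, I.card ≤ n → c I ∈ On (K I) I.card ∧
        bd (c I) = ∑ i ∈ I, c (I.erase i) := by
  classical
  intro n
  induction n with
  | zero =>
    refine ⟨fun _ => single [] 1, rfl, fun I hI => ?_⟩
    have : I = ∅ := Finset.card_eq_zero.mp (by omega)
    subst this
    refine ⟨single_mem_On hnil rfl 1, ?_⟩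
    simp [dl]
  | succ n ih =>
    obtain ⟨c, hc0, hc⟩ := ih
    have key : ∀ I : Finset ι, I.card = n + 1 → ∃ e ∈ On (K I) (n + 1),
        bd e = ∑ i ∈ I, c (I.erase i) := by
      intro I hI
      have hcard : ∀ i ∈ I, (I.erase i).card = n := fun i hi => by
        rw [Finset.card_erase_of_mem hi, hI]; rfl
      refine hac I n (by omega) _ ?_ ?_
      · refine Submodule.sum_mem _ fun i hi => ?_
        have := (hc (I.erase i) (hcard i hi).le).1
        rw [hcard i hi] at this
        exact On_mono (hmono _ _ (Finset.erase_subset _ _)) n this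
      · rw [map_sum]
        have h1 : ∀ i ∈ I, bd (c (I.erase i)) = ∑ i' ∈ I.erase i, c ((I.erase i).erase i') :=
          fun i hi => (hc (I.erase i) (hcard i hi).le).2
        rw [Finset.sum_congr rfl h1, Finset.sum_sigma']
        refine Finset.sum_involution (fun p _ => ⟨p.2, p.1⟩) ?_ ?_ ?_ ?_
        · rintro ⟨i, i'⟩ _
          simp only
          rw [Finset.erase_right_comm]
          exact ch_add_self _
        · rintro ⟨i, i'⟩ hp _ heq
          simp only [Finset.mem_sigma, Finset.mem_erase] at hp
          simp only [Sigma.mk.injEq, heq_eq_eq] at heq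
          exact hp.2.1 heq.1
        · rintro ⟨i, i'⟩ hp
          simp only [Finset.mem_sigma, Finset.mem_erase] at hp ⊢
          exact ⟨hp.2.2, Ne.symm hp.2.1, hp.1⟩
        · rintro ⟨i, i'⟩ _
          rfl
    choose! e he using key
    refine ⟨fun I => if I.card = n + 1 then e I else c I, ?_, fun I hI => ?_⟩
    · simp [hc0]
    · rcases Nat.lt_or_ge I.card (n + 1) with hlt | hge
      · have h1 : ¬ I.card = n + 1 := by omega
        simp only [if_neg h1]
        refine ⟨(hc I (by omega)).1, ?_⟩
        rw [(hc I (by omega)).2]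
        refine Finset.sum_congr rfl fun i hi => ?_
        rw [if_neg]
        rw [Finset.card_erase_of_mem hi]
        omega
      · have h1 : I.card = n + 1 := by omega
        simp only [if_pos h1]
        refine ⟨?_, ?_⟩
        · rw [h1]; exact (he I h1).1
        · rw [(he I h1).2]
          refine Finset.sum_congr rfl fun i hi => ?_
          rw [if_neg]
          rw [Finset.card_erase_of_mem hi]
          omega

/-- Sperner's parity statement. -/
lemma parity [Fintype ι] (K : Finset ι → List α → Prop) (hcx : ∀ I, IsCx (K I))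
    (lab : List α → ι) (hlab : ∀ I l, K I l → l ≠ [] → lab l ∈ I)
    (N : ℕ) (c : Finset ι → Ch α) (hc0 : c ∅ = single [] 1)
    (hc : ∀ I : Finset ι, I.card ≤ N → c I ∈ On (K I) I.card ∧
      bd (c I) = ∑ i ∈ I, c (I.erase i)) :
    ∀ (n : ℕ), n ≤ N → ∀ I : Finset ι, I.card = n → th I (lam lab n (c I)) = 1 := by
  intro n
  induction n with
  | zero =>
    intro _ I hI
    have : I = ∅ := Finset.card_eq_zero.mp hI
    subst this
    rw [hc0, lam_zero_single, th_single]
    simp
  | succ n ih =>
    intro hn I hI
    obtain ⟨j, hj⟩ : I.Nonempty := by rw [← Finset.card_pos]; omega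
    have hcard : ∀ i ∈ I, (I.erase i).card = n := fun i hi => by
      rw [Finset.card_erase_of_mem hi, hI]; rfl
    have h1 : th (I.erase j) (bd (lam lab (n + 1) (c I))) = 1 := by
      rw [bd_lam, (hc I (by omega)).2, map_sum, map_sum, Finset.sum_eq_single j]
      · exact ih (by omega) _ (hcard j hj)
      · intro i hi hij
        have h2 := (hc (I.erase i) (by rw [hcard i hi]; omega)).1
        rw [hcard i hi] at h2
        exact th_eq_zero (I := I.erase j) (J := I.erase i) (i := i)
          (Finset.mem_erase.mpr ⟨hij, hi⟩) (Finset.notMem_erase i I)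
          (lam_mem lab (hcx _) _ (hlab _) n _ h2)
      · intro h; exact absurd hj h
    rw [th_bd, Finset.sum_eq_single j, Finset.insert_erase hj] at h1
    · exact h1
    · intro j' hj' hne
      have h2 := (hc I (by omega)).1
      rw [hI] at h2
      refine th_eq_zero (I := insert j' (I.erase j)) (J := I) (i := j')
        (Finset.mem_insert_self _ _) ?_ (lam_mem lab (hcx _) _ (hlab _) (n + 1) _ h2)
      simp only [Finset.mem_compl, Finset.mem_erase, not_and] at hj'
      exact hj' hne
    · intro h
      simp at h

/-- Extracting the labels from a nonzero count. -/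
lemma extract (pl : ℕ → α → ι) (lab : List α → ι)
    (hlab : ∀ (a : α) (l : List α), lab (a :: l) = pl l.length a) :
    ∀ (n : ℕ) (l : List α) (I : Finset ι), l.length = n → th I (lam lab n (single l 1)) ≠ 0 →
      ∃ g : ℕ → Option α, ∀ m < n, ∃ a, g m = some a ∧ a ∈ l ∧ pl m a ∈ I ∧
        ∀ m' < n, m' ≠ m → ∀ a', g m' = some a' → pl m' a' ≠ pl m a := by
  intro n
  induction n with
  | zero =>
    intro l I _ _
    exact ⟨fun _ => none, fun m hm => absurd hm (Nat.not_lt_zero m)⟩
  | succ n ih =>
    intro l I hlen hne
    cases l with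
    | nil => simp at hlen
    | cons a l =>
      simp only [List.length_cons, Nat.add_right_cancel_iff] at hlen
      rw [lam_succ_single, th_cn, hlab, hlen] at hne
      have haI : pl n a ∈ I := by
        by_contra h
        rw [if_neg h] at hne
        exact hne rfl
      rw [if_pos haI] at hne
      have hex : ∃ l' : List α, l' ⊆ a :: l ∧ l'.length = n ∧
          th (I.erase (pl n a)) (lam lab n (single l' 1)) ≠ 0 := by
        by_contra hcon
        push Not at hcon
        apply hne
        have := map_mem_of ((th (I.erase (pl n a))) ∘ₗ lam lab n)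
          (⊥ : Submodule (ZMod 2) (ZMod 2)) (by
          intro l' hl' hlen'
          rw [LinearMap.comp_apply, hcon l' hl' hlen']
          exact Submodule.zero_mem _) (dl_mem (a :: l) n (by simp [hlen]))
        simpa using this
      obtain ⟨l', hl', hlen', hne'⟩ := hex
      obtain ⟨g, hg⟩ := ih l' _ hlen' hne'
      refine ⟨fun m => if m = n then some a else g m, fun m hm => ?_⟩
      rcases Nat.lt_succ_iff_lt_or_eq.mp hm with hmn | rfl
      · obtain ⟨b, hb, hbl, hbI, hbd⟩ := hg m hmn
        refine ⟨b, ?_, hl' hbl, Finset.mem_of_mem_erase hbI, ?_⟩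
        · simp only [if_neg hmn.ne, hb]
        · intro m' hm' hne a' ha'
          rcases Nat.lt_succ_iff_lt_or_eq.mp hm' with hm'n | rfl
          · simp only [if_neg hm'n.ne] at ha'
            exact hbd m' hm'n hne a' ha'
          · simp only [if_true, Option.some.injEq] at ha'
            subst ha'
            exact Ne.symm (Finset.ne_of_mem_erase hbI)
      · refine ⟨a, by simp, by simp, haI, ?_⟩
        intro m' hm' hne a' ha'
        have hm'n : m' < m := by omega
        simp only [if_neg hm'n.ne] at ha'
        obtain ⟨b, hb, -, hbI, -⟩ := hg m' hm'n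
        rw [ha'] at hb
        simp only [Option.some.injEq] at hb
        subst hb
        exact Finset.ne_of_mem_erase hbI

/-- Colourful Sperner lemma: if the complexes `K I` are acyclic up to dimension `|I| - 2` and all
players put labels from `I` on the vertices of `K I`, then some simplex has vertices `g m`, one for
every player `m`, with pairwise different labels. -/
theorem colourful_sperner {k : ℕ} (hk : 0 < k) (K : Finset (Fin k) → List α → Prop)
    (hcx : ∀ I, IsCx (K I)) (hmono : ∀ I J, I ⊆ J → ∀ l, K I l → K J l) (hnil : K ∅ [])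
    (hac : ∀ I, Acyc (K I) I.card) (pl : Fin k → α → Fin k)
    (hpl : ∀ I l, K I l → ∀ m, ∀ a ∈ l, pl m a ∈ I) :
    ∃ l : List α, K Finset.univ l ∧ ∃ g : Fin k → α, (∀ m, g m ∈ l) ∧
      Function.Injective (fun m => pl m (g m)) := by
  classical
  -- players indexed by natural numbers
  set pl' : ℕ → α → Fin k := fun m a => if h : m < k then pl ⟨m, h⟩ a else pl ⟨0, hk⟩ a with hpl'
  set lab : List α → Fin k := fun l => match l with
    | [] => ⟨0, hk⟩
    | a :: l => pl' l.length a with hlabdef
  have hlab : ∀ I l, K I l → l ≠ [] → lab l ∈ I := by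
    intro I l hl hne
    cases l with
    | nil => exact absurd rfl hne
    | cons a l =>
      simp only [hlabdef, hpl']
      split_ifs
      · exact hpl I _ hl _ a (by simp)
      · exact hpl I _ hl _ a (by simp)
  obtain ⟨c, hc0, hc⟩ := exists_chains K hmono hnil hac k
  have hpar := parity K hcx lab hlab k c hc0 hc k le_rfl Finset.univ (by simp)
  have hcu := (hc Finset.univ (by simp)).1
  rw [Finset.card_univ, Fintype.card_fin] at hcu
  have hex : ∃ l : List α, K Finset.univ l ∧ l.length = k ∧
      th Finset.univ (lam lab k (single l 1)) ≠ 0 := by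
    by_contra hcon
    push Not at hcon
    have := map_mem_of ((th Finset.univ) ∘ₗ lam lab k) (⊥ : Submodule (ZMod 2) (ZMod 2)) (by
      intro l' hl' hlen'
      rw [LinearMap.comp_apply, hcon l' hl' hlen']
      exact Submodule.zero_mem _) hcu
    simp only [LinearMap.comp_apply, Submodule.mem_bot] at this
    rw [this] at hpar
    exact zero_ne_one hpar
  obtain ⟨l, hl, hlen, hne⟩ := hex
  obtain ⟨g, hg⟩ := extract pl' lab (fun a l => rfl) k l Finset.univ hlen hne
  have hαne : Nonempty α := by
    obtain ⟨a, -⟩ := hg 0 hk
    exact ⟨a⟩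
  choose! a ha using hg
  refine ⟨l, hl, fun m => a m, fun m => (ha m m.2).2.1, ?_⟩
  intro m m' hmm
  by_contra hne'
  have h1 := (ha m' m'.2).2.2.2 m m.2 (fun h => hne' (Fin.ext h)) (a m) (ha m m.2).1
  apply h1
  simp only [hpl', dif_pos m.2, dif_pos m'.2]
  exact hmm

end Pool.Agent.Helper35.DC
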