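import Pool.Agent.Helper35.DC.AcycKC
import Pool.Agent.Helper35.DC.Sperner

/-!
# From the Sperner lemma to disjoint connected sets
-/

namespace Pool.Agent.Helper35.DC

open Finset

variable {V : Type} [Fintype V] [DecidableEq V] {k : ℕ}

/-- Attachment to the roots with index in `I`. -/
def attI (H : SimpleGraph V) (t : Fin k → V) (I : Finset (Fin k)) : V → ℕ → Prop :=
  fun u i => ∃ h : i < k, (⟨i, h⟩ : Fin k) ∈ I ∧ H.Adj u (t ⟨i, h⟩)

/-- Vertices that are not roots. -/
def WW (t : Fin k → V) : Finset V := univ \ univ.image t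

lemma mem_WW {t : Fin k → V} {u : V} : u ∈ WW t ↔ ∀ i, u ≠ t i := by
  simp only [WW, mem_sdiff, mem_univ, mem_image, true_and, not_exists]
  exact ⟨fun h i => Ne.symm (h i), fun h i => Ne.symm (h i)⟩

/-- The complex of the face `I`. -/
def KI (H : SimpleGraph V) (t : Fin k → V) (M : ℕ) (I : Finset (Fin k)) :
    List (V → ℕ → ℕ) → Prop :=
  KC H.Adj k M (WW t) (attI H t I) ∅ (fun _ _ => True)

lemma attI_lt {H : SimpleGraph V} {t : Fin k → V} {I : Finset (Fin k)} (u : V) (i : ℕ)
    (h : attI H t I u i) : i < k := h.1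

lemma attI_mem {H : SimpleGraph V} {t : Fin k → V} {I : Finset (Fin k)} {u : V} {i : Fin k}
    (h : attI H t I u i) : i ∈ I ∧ H.Adj u (t i) := h.2

/-- Connectivity after the deletion of fewer than `k` vertices. -/
def Rob (H : SimpleGraph V) (k : ℕ) : Prop :=
  ∀ T : Finset V, T.card < k → (H.induce {v | v ∉ T}).Preconnected

lemma RJ_of_Rob {H : SimpleGraph V} (hH : Rob H k) {t : Fin k → V} (ht : Function.Injective t)
    (I : Finset (Fin k)) : RJ H.Adj (WW t) (attI H t I) I.card := by
  intro T hT hTc u hu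
  have hne : I.Nonempty := card_pos.mp (by omega)
  obtain ⟨i0, hi0⟩ := hne
  set T' : Finset V := T ∪ (univ \ I).image t with hT'
  have hcard : T'.card < k := by
    have h1 : ((univ \ I).image t).card ≤ k - I.card := by
      refine card_image_le.trans ?_
      rw [card_sdiff_of_subset (subset_univ I), card_univ, Fintype.card_fin]
    have h2 : I.card ≤ k := by
      simpa using card_le_univ I
    have h3 : T'.card ≤ T.card + ((univ \ I).image t).card :=
      card_union_le T ((univ \ I).image t)
    omega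
  have hpre := hH T' hcard
  have hmemT' : ∀ v, v ∉ T' ↔ (v ∉ T ∧ ∀ i, i ∉ I → v ≠ t i) := by
    intro v
    simp only [hT', mem_union, mem_image, mem_sdiff, mem_univ, true_and, not_or, not_exists,
      not_and]
    constructor
    · rintro ⟨h1, h2⟩
      exact ⟨h1, fun i hi => Ne.symm (h2 i hi)⟩
    · rintro ⟨h1, h2⟩
      exact ⟨h1, fun i hi => Ne.symm (h2 i hi)⟩
  have ht0 : t i0 ∉ T' := by
    rw [hmemT']
    refine ⟨fun h => ?_, fun i hi h => ?_⟩
    · exact mem_WW.mp (hT h) i0 rfl
    · exact hi (ht h ▸ hi0)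
  rw [mem_sdiff] at hu
  have hu' : u ∉ T' := by
    rw [hmemT']
    exact ⟨hu.2, fun i _ => mem_WW.mp hu.1 i⟩
  have hreach := hpre ⟨u, hu'⟩ ⟨t i0, ht0⟩
  rw [SimpleGraph.reachable_iff_reflTransGen] at hreach
  have key : ∀ a b : {v | v ∉ T'}, Relation.ReflTransGen (H.induce {v | v ∉ T'}).Adj a b →
      (∃ i, b.1 = t i) → a.1 ∈ WW t → RW H.Adj (WW t \ T) (attI H t I) a.1 := by
    intro a b hab hb
    induction hab using Relation.ReflTransGen.head_induction_on with
    | refl =>
      intro ha
      obtain ⟨i, hi⟩ := hb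
      exact absurd hi (mem_WW.mp ha i)
    | @head a c hac _ ih =>
      intro ha
      have ha' : a.1 ∈ WW t \ T := mem_sdiff.mpr ⟨ha, ((hmemT' _).mp a.2).1⟩
      have hadj : H.Adj a.1 c.1 := hac
      by_cases hc : c.1 ∈ WW t
      · exact .step ha' (ih hc) hadj
      · have : ∃ i, c.1 = t i := by
          rw [mem_WW] at hc
          push Not at hc
          exact hc
        obtain ⟨i, hi⟩ := this
        have hiI : i ∈ I := by
          by_contra hiI
          exact ((hmemT' _).mp c.2).2 i hiI hi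
        exact .base i ha' ⟨i.2, hiI, by rw [← hi]; exact hadj⟩
  exact key _ _ hreach ⟨i0, rfl⟩ hu.1

/-- Value of the label `i` at the vertex `u`. -/
def xv (t : Fin k → V) (M : ℕ) (g : V → ℕ → ℕ) (u : V) (i : Fin k) : ℕ :=
  if u ∈ WW t then g u (i + 1) - g u i else if u = t i then M else 0

lemma Good.sum_eq {M : ℕ} {y : ℕ → ℕ} (h : Good k M y) :
    ∑ i : Fin k, (y (i + 1) - y i) = M := by
  have h1 : ∀ n, ∑ i ∈ range n, (y (i + 1) - y i) = y n := by
    intro n
    induction n with
    | zero => simp [h.zero]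
    | succ n ih =>
      rw [sum_range_succ, ih]
      have := h.mono n
      omega
  rw [Fin.sum_univ_eq_sum_range (fun i => y (i + 1) - y i) k, h1, h.top k le_rfl]

lemma xv_sum {H : SimpleGraph V} {t : Fin k → V} (ht : Function.Injective t) {M : ℕ}
    {I : Finset (Fin k)} {l : List (V → ℕ → ℕ)} (hl : KI H t M I l) {g : V → ℕ → ℕ} (hg : g ∈ l)
    (u : V) : ∑ i : Fin k, xv t M g u i = M := by
  by_cases hu : u ∈ WW t
  · simp only [xv, if_pos hu]
    exact (hl.1 g hg u hu).1.sum_eq
  · simp only [xv, if_neg hu]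
    rw [mem_WW] at hu
    push Not at hu
    obtain ⟨i0, hi0⟩ := hu
    rw [sum_eq_single i0]
    · rw [if_pos hi0]
    · intro i _ hi
      rw [if_neg]
      intro h
      exact hi (ht (h.symm.trans hi0))
    · simp

lemma xv_close {H : SimpleGraph V} {t : Fin k → V} {M : ℕ}
    {I : Finset (Fin k)} {l : List (V → ℕ → ℕ)} (hl : KI H t M I l) {g g' : V → ℕ → ℕ}
    (hg : g ∈ l) (hg' : g' ∈ l) (u : V) (i : Fin k) : xv t M g u i ≤ xv t M g' u i + 2 := by
  by_cases hu : u ∈ WW t
  · simp only [xv, if_pos hu]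
    have h1 := hl.2.1 g hg g' hg' u hu (i + 1)
    have h2 := hl.2.1 g' hg' g hg u hu i
    have h3 := (hl.1 g' hg' u hu).1.mono i
    have h4 := (hl.1 g hg u hu).1.mono i
    omega
  · simp only [xv, if_neg hu]
    omega

/-- Value of the label `i` for a weight. -/
def val (t : Fin k → V) (M : ℕ) (w : V → ℕ) (g : V → ℕ → ℕ) (i : Fin k) : ℕ :=
  ∑ u, w u * xv t M g u i

lemma val_sum {H : SimpleGraph V} {t : Fin k → V} (ht : Function.Injective t) {M : ℕ}
    {I : Finset (Fin k)} {l : List (V → ℕ → ℕ)} (hl : KI H t M I l) {g : V → ℕ → ℕ} (hg : g ∈ l)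
    (w : V → ℕ) : ∑ i : Fin k, val t M w g i = M * ∑ u, w u := by
  simp only [val]
  rw [sum_comm, mul_sum]
  refine sum_congr rfl fun u _ => ?_
  rw [← mul_sum, xv_sum ht hl hg, mul_comm]

/-- Sperner lemma for weights: the players can be assigned to different labels of maximal value. -/
theorem sperner_weights {H : SimpleGraph V} (hk : 0 < k) (hH : Rob H k) {t : Fin k → V}
    (ht : Function.Injective t) {M : ℕ} (hM : 0 < M) (w : Fin k → V → ℕ)
    (hw : ∀ m i, k * w m (t i) < ∑ u, w m u) :
    ∃ l : List (V → ℕ → ℕ), KI H t M univ l ∧ ∃ g : Fin k → V → ℕ → ℕ, (∀ m, g m ∈ l) ∧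
      ∃ π : Equiv.Perm (Fin k), ∀ m i, val t M (w m) (g m) i ≤ val t M (w m) (g m) (π m) := by
  classical
  have : Nonempty (Fin k) := ⟨⟨0, hk⟩⟩
  have hmax : ∀ (m : Fin k) (g : V → ℕ → ℕ), ∃ i : Fin k, ∀ i', val t M (w m) g i' ≤
      val t M (w m) g i := by
    intro m g
    obtain ⟨i, -, hi⟩ := exists_max_image univ (fun i => val t M (w m) g i) univ_nonempty
    exact ⟨i, fun i' => hi i' (mem_univ _)⟩
  choose pl hpl using hmax
  obtain ⟨l, hl, g, hg, hinj⟩ := colourful_sperner hk (KI H t M) (fun I => isCx_KC _ _ _ _)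
    (fun I J hIJ l hl => hl.mono_att (fun u i h => ⟨h.1, hIJ h.2.1, h.2.2⟩))
    (KC_nil _ _ _ _)
    (fun I => acyc_KC hM _ (WW t) rfl _ ∅ _ _ (fun u i h => h.1) (empty_subset _) (by simp)
      (by simp) (RJ_of_Rob hH ht I))
    (fun m g => pl m g) (by
      intro I l hl m g hg
      by_contra hI
      set i := pl m g with hi
      have hval : val t M (w m) g i = w m (t i) * M := by
        rw [val, sum_eq_single (t i)]
        · rw [xv, if_neg, if_pos rfl]
          rw [mem_WW]; push Not; exact ⟨i, rfl⟩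
        · intro u _ hu
          rw [xv]
          split_ifs with h1
          · have hnot : ¬ g u i < g u (i + 1) := by
              intro hlt
              rcases (hl.1 g hg u h1).2 i hlt with h | ⟨v, hv, -⟩
              · exact hI (attI_mem h).1
              · obtain ⟨v', -, hv', -⟩ := hv.exists_base
                exact hI (attI_mem hv').1
            have : g u (i + 1) - g u i = 0 := by omega
            rw [this, mul_zero]
          · rw [mul_zero]
        · intro h; exact absurd (mem_univ _) h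
      have h1 := val_sum ht hl hg (w m)
      have h2 : ∑ i' : Fin k, val t M (w m) g i' ≤ ∑ _i' : Fin k, val t M (w m) g i :=
        sum_le_sum fun i' _ => hpl m g i'
      rw [h1, sum_const, card_univ, Fintype.card_fin, smul_eq_mul, hval] at h2
      have h3 := hw m i
      have h4 : M * (k * w m (t i)) < M * ∑ u, w m u := Nat.mul_lt_mul_of_pos_left h3 hM
      have h5 : k * (w m (t i) * M) = M * (k * w m (t i)) := by ring
      omega)
  refine ⟨l, hl, g, hg, Equiv.ofBijective _ (Finite.injective_iff_bijective.mp hinj), ?_⟩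
  intro m i
  exact hpl m (g m) i

section round

variable (H : SimpleGraph V) (t : Fin k → V) (M : ℕ) (l : List (V → ℕ → ℕ))

/-- Solid vertices of the label `i`. -/
def Sld (i : ℕ) (u : V) : Prop := RC H.Adj M (WW t) (attI H t univ) l i u

/-- The label `i` occurs at `u`. -/
def Sup (i : ℕ) (u : V) : Prop := ∃ g ∈ l, g u i < g u (i + 1)

open Classical in
/-- The solid part of the label `i`. -/
noncomputable def Cor (i : Fin k) : Finset V := insert (t i) (univ.filter (Sld H t M l i))

/-- Soft vertices. -/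
def Sft (u : V) : Prop := u ∈ WW t ∧ ∀ i, ¬ Sld H t M l i u

open Classical in
/-- Soft elements of `N` that may get the label `i`. -/
noncomputable def DD (N : Finset V) (i : Fin k) : Finset V :=
  N.filter (fun u => Sft H t M l u ∧ Sup l i u)

variable {H t M l}

lemma mem_Cor {i : Fin k} {u : V} : u ∈ Cor H t M l i ↔ u = t i ∨ Sld H t M l i u := by
  simp [Cor]

lemma mem_DD {N : Finset V} {i : Fin k} {u : V} :
    u ∈ DD H t M l N i ↔ u ∈ N ∧ Sft H t M l u ∧ Sup l i u := by
  simp [DD]

lemma Sld.mem {i : ℕ} {u : V} (h : Sld H t M l i u) : u ∈ WW t := RC.mem h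

lemma Sld.sol {i : ℕ} {u : V} (h : Sld H t M l i u) : ∀ g ∈ l, g u = Sol M i := RC.sol h

lemma Sld.unique (hM : 0 < M) (hl : l ≠ []) {i i' : ℕ} {u : V} (h : Sld H t M l i u)
    (h' : Sld H t M l i' u) : i = i' := by
  obtain ⟨g, hg⟩ := List.exists_mem_of_ne_nil l hl
  exact Sol_inj hM ((h.sol g hg).symm.trans (h'.sol g hg))

lemma Sld.lt {i : ℕ} {u : V} (h : Sld H t M l i u) : i < k := by
  obtain ⟨v, -, hv, -⟩ := h.exists_base
  exact hv.1

/-- Every soft vertex has at least two labels. -/
lemma Sft.two (hM : 0 < M) (hl : l ≠ []) (hK : KI H t M univ l) {u : V} (hu : Sft H t M l u) :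
    ∃ i i' : Fin k, i ≠ i' ∧ Sup l i u ∧ Sup l i' u := by
  obtain ⟨g0, hg0⟩ := List.exists_mem_of_ne_nil l hl
  obtain ⟨i, hi⟩ := (hK.1 g0 hg0 u hu.1).1.exists_supp hM
  have hik : i < k := (hK.1 g0 hg0 u hu.1).1.supp_lt hi
  by_contra hcon
  push Not at hcon
  have honly : ∀ g ∈ l, ∀ j, g u j < g u (j + 1) → j = i := by
    intro g hg j hj
    by_contra hne
    have hjk : j < k := (hK.1 g hg u hu.1).1.supp_lt hj
    exact hcon ⟨i, hik⟩ ⟨j, hjk⟩ (fun h => hne (by simpa using (congrArg Fin.val h).symm))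
      ⟨g0, hg0, hi⟩ ⟨g, hg, hj⟩
  have hsol : ∀ g ∈ l, g u = Sol M i := by
    intro g hg
    have hgood := (hK.1 g hg u hu.1).1
    have h1 : ∀ j ≤ i, g u j = 0 := by
      intro j
      induction j with
      | zero => intro _; exact hgood.zero
      | succ j ih =>
        intro hj
        have h0 := ih (by omega)
        by_contra hne
        have := honly g hg j (by omega)
        omega
    have h2 : ∀ n, g u (i + 1 + n) = g u (i + 1) := by
      intro n
      induction n with
      | zero => rfl
      | succ n ih =>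
        by_contra hne
        have h3 := hgood.mono (i + 1 + n)
        have := honly g hg (i + 1 + n) (by
          have : g u (i + 1 + n + 1) ≠ g u (i + 1 + n) := by rw [ih]; exact hne
          omega)
        omega
    have h3 : g u (i + 1) = M := by
      have := h2 k
      rw [hgood.top _ (by omega)] at this
      exact this.symm
    funext j
    unfold Sol
    split_ifs with hj
    · exact h1 j hj
    · have := h2 (j - (i + 1))
      rw [show i + 1 + (j - (i + 1)) = j by omega] at this
      rw [this, h3]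
  refine hu.2 i ?_
  rcases (hK.1 g0 hg0 u hu.1).2 i hi with h | ⟨v, hv, huv⟩
  · exact RC.base hu.1 hsol h
  · exact RC.step hu.1 hsol hv huv

/-- If the demands can be met, there are disjoint connected sets. -/
theorem round (hM : 0 < M) (hl : l ≠ []) (hK : KI H t M univ l) (ht : Function.Injective t)
    (N : Fin k → Finset V) (π : Equiv.Perm (Fin k))
    (hall : ∀ Z : Finset (Fin k), ∑ m ∈ Z, (2 - (N m ∩ Cor H t M l (π m)).card) ≤
      (Z.biUnion fun m => DD H t M l (N m) (π m)).card) :
    ∃ P : Fin k → Finset V, (∀ m m', m ≠ m' → Disjoint (P m) (P m')) ∧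
      (∀ m, (H.induce (P m : Set V)).Preconnected) ∧ ∀ m, 2 ≤ (N m ∩ P m).card := by
  classical
  set d : Fin k → ℕ := fun m => (N m ∩ Cor H t M l (π m)).card with hd
  have hex : ∃ f : (Σ m : Fin k, Fin (2 - d m)) → V, Function.Injective f ∧
      ∀ x, f x ∈ DD H t M l (N x.1) (π x.1) := by
    rw [← Finset.all_card_le_biUnion_card_iff_exists_injective]
    intro s
    set Z : Finset (Fin k) := s.image (fun x => x.1) with hZ
    have h1 : s.card ≤ ∑ m ∈ Z, (2 - d m) := by
      have h2 : s ⊆ Z.sigma fun m => (univ : Finset (Fin (2 - d m))) := by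
        intro x hx
        rw [mem_sigma]
        exact ⟨mem_image_of_mem _ hx, mem_univ _⟩
      have h3 := card_le_card h2
      rw [card_sigma] at h3
      simpa using h3
    refine h1.trans ((hall Z).trans (card_le_card ?_))
    intro u hu
    rw [mem_biUnion] at hu ⊢
    obtain ⟨m, hm, hu⟩ := hu
    obtain ⟨x, hx, rfl⟩ := mem_image.mp hm
    exact ⟨x, hx, hu⟩
  obtain ⟨f, hf, hfD⟩ := hex
  have hft : ∀ x i, f x ≠ t i := fun x => mem_WW.mp (mem_DD.mp (hfD x)).2.1.1
  have hfS : ∀ x i, ¬ Sld H t M l i (f x) := fun x => (mem_DD.mp (hfD x)).2.1.2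
  have hfC : ∀ x i, f x ∉ Cor H t M l i := by
    intro x i h
    rcases mem_Cor.mp h with h | h
    · exact hft x i h
    · exact hfS x i h
  refine ⟨fun m => Cor H t M l (π m) ∪ univ.image (fun c : Fin (2 - d m) => f ⟨m, c⟩), ?_, ?_, ?_⟩
  · intro m m' hne
    have hπ : π m ≠ π m' := fun h => hne (π.injective h)
    rw [disjoint_left]
    intro u hu hu'
    rw [mem_union, mem_image] at hu hu'
    rcases hu with hu | ⟨c, -, rfl⟩
    · rcases hu' with hu' | ⟨c, -, rfl⟩
      · rcases mem_Cor.mp hu with rfl | h1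
        · rcases mem_Cor.mp hu' with h | h
          · exact hπ (ht h)
          · exact mem_WW.mp h.mem _ rfl
        · rcases mem_Cor.mp hu' with rfl | h
          · exact mem_WW.mp h1.mem _ rfl
          · exact hπ (Fin.ext (h1.unique hM hl h))
      · exact hfC _ _ hu
    · rcases hu' with hu' | ⟨c', -, h⟩
      · exact hfC _ _ hu'
      · have := congrArg Sigma.fst (hf h)
        exact hne this.symm
  · intro m
    have hmem : ∀ u, u ∈ (Cor H t M l (π m) ∪ univ.image (fun c : Fin (2 - d m) => f ⟨m, c⟩) :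
        Finset V) → ∀ (h0 : t (π m) ∈ ((Cor H t M l (π m) ∪
        univ.image (fun c : Fin (2 - d m) => f ⟨m, c⟩) : Finset V) : Set V))
        (h1 : u ∈ ((Cor H t M l (π m) ∪ univ.image (fun c : Fin (2 - d m) => f ⟨m, c⟩) :
        Finset V) : Set V)), (H.induce ((Cor H t M l (π m) ∪
        univ.image (fun c : Fin (2 - d m) => f ⟨m, c⟩) : Finset V) : Set V)).Reachable
        ⟨u, h1⟩ ⟨t (π m), h0⟩ := by
      set Q : Finset V := Cor H t M l (π m) ∪ univ.image (fun c : Fin (2 - d m) => f ⟨m, c⟩)
        with hQ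
      have hsld : ∀ u, Sld H t M l (π m) u → ∀ (h0 : t (π m) ∈ (Q : Set V)) (h1 : u ∈ (Q : Set V)),
          (H.induce (Q : Set V)).Reachable ⟨u, h1⟩ ⟨t (π m), h0⟩ := by
        intro u hu h0
        induction hu with
        | base _ _ ha =>
          intro h1
          refine SimpleGraph.Adj.reachable ?_
          exact (attI_mem ha).2
        | @step u v _ _ hv ha ih =>
          intro h1
          have hvQ : v ∈ (Q : Set V) := by
            rw [hQ]; simp only [coe_union, Set.mem_union, mem_coe]
            exact Or.inl (mem_Cor.mpr (Or.inr hv))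
          have hadj : (H.induce (Q : Set V)).Adj ⟨u, h1⟩ ⟨v, hvQ⟩ := ha
          exact hadj.reachable.trans (ih hvQ)
      intro u hu h0 h1
      rw [hQ, mem_union, mem_image] at hu
      rcases hu with hu | ⟨c, -, rfl⟩
      · rcases mem_Cor.mp hu with rfl | hu
        · exact SimpleGraph.Reachable.refl _
        · exact hsld u hu h0 h1
      · obtain ⟨g, hg, hlt⟩ := (mem_DD.mp (hfD ⟨m, c⟩)).2.2
        have huW := (mem_DD.mp (hfD ⟨m, c⟩)).2.1.1
        rcases (hK.1 g hg _ huW).2 _ hlt with h | ⟨v, hv, huv⟩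
        · refine SimpleGraph.Adj.reachable ?_
          exact (attI_mem h).2
        · have hvQ : v ∈ (Q : Set V) := by
            rw [hQ]; simp only [coe_union, Set.mem_union, mem_coe]
            exact Or.inl (mem_Cor.mpr (Or.inr hv))
          have hadj : (H.induce (Q : Set V)).Adj ⟨f ⟨m, c⟩, h1⟩ ⟨v, hvQ⟩ := huv
          exact hadj.reachable.trans (hsld v hv h0 hvQ)
    intro a b
    have h0 : t (π m) ∈ ((Cor H t M l (π m) ∪ univ.image (fun c : Fin (2 - d m) => f ⟨m, c⟩) :
        Finset V) : Set V) := by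
      simp only [coe_union, Set.mem_union, mem_coe]
      exact Or.inl (mem_Cor.mpr (Or.inl rfl))
    exact (hmem a.1 a.2 h0 a.2).trans (hmem b.1 b.2 h0 b.2).symm
  · intro m
    have h1 : N m ∩ (Cor H t M l (π m) ∪ univ.image (fun c : Fin (2 - d m) => f ⟨m, c⟩)) =
        (N m ∩ Cor H t M l (π m)) ∪ univ.image (fun c : Fin (2 - d m) => f ⟨m, c⟩) := by
      rw [inter_union_distrib_left]
      congr 1
      rw [inter_eq_right]
      intro u hu
      obtain ⟨c, -, rfl⟩ := mem_image.mp hu
      exact (mem_DD.mp (hfD ⟨m, c⟩)).1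
    rw [h1, card_union_of_disjoint]
    · rw [card_image_of_injective]
      · rw [card_univ, Fintype.card_fin]
        change 2 ≤ d m + (2 - d m)
        omega
      · intro c c' h
        have := hf h
        simpa using this
    · rw [disjoint_left]
      intro u hu hu'
      obtain ⟨c, -, rfl⟩ := mem_image.mp hu'
      exact hfC _ _ (mem_inter.mp hu).2

end round

end Pool.Agent.Helper35.DC
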