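import Pool.Agent.Helper35.DC.Count

/-!
# Disjoint connected sets with two elements of given sets
-/

namespace Pool.Agent.Helper35.DC

open Finset

variable {V : Type} [Fintype V] [DecidableEq V] {k : ℕ}

/-- Case of `k` common elements. -/
lemma case_common {H : SimpleGraph V} (hk : 2 ≤ k) (hH : Rob H k) (N : Fin k → Finset V)
    (hN : ∀ m, 2 * k ≤ (N m).card + 1) (hU : 2 * k ≤ (univ.biUnion N).card)
    (T : Finset V) (hT : T.card = k) (hTN : ∀ m, T ⊆ N m) : Concl H N := by
  classical
  set t : Fin k → V := fun i => ((T.equivFinOfCardEq hT).symm i : V) with ht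
  have htinj : Function.Injective t := fun i j h =>
    (T.equivFinOfCardEq hT).symm.injective (Subtype.ext h)
  have htT : ∀ i, t i ∈ T := fun i => ((T.equivFinOfCardEq hT).symm i).2
  have hTt : ∀ u ∈ T, ∃ i, u = t i := by
    intro u hu
    exact ⟨T.equivFinOfCardEq hT ⟨u, hu⟩, by simp [ht]⟩
  have hex : ∃ s : Fin k → V, Function.Injective s ∧ ∀ m, s m ∈ N m \ T := by
    rw [← Finset.all_card_le_biUnion_card_iff_exists_injective]
    intro Z
    rcases Z.eq_empty_or_nonempty with rfl | ⟨m, hm⟩
    · simp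
    · by_cases hZ : Z.card = k
      · have hZu : Z = univ := by
          rw [← card_eq_iff_eq_univ, hZ, Fintype.card_fin]
        subst hZu
        have h1 : (univ.biUnion N).card ≤ (univ.biUnion fun m => N m \ T).card + T.card := by
          refine le_trans (card_le_card ?_) (card_union_le _ _)
          intro u hu
          rw [mem_biUnion] at hu
          obtain ⟨m, hm, hu⟩ := hu
          rw [mem_union, mem_biUnion]
          by_cases huT : u ∈ T
          · exact Or.inr huT
          · exact Or.inl ⟨m, hm, mem_sdiff.mpr ⟨hu, huT⟩⟩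
        omega
      · have h1 : Z.card ≤ k := by simpa using card_le_univ Z
        have h2 : (N m \ T).card ≤ (Z.biUnion fun m => N m \ T).card :=
          card_le_card (subset_biUnion_of_mem (fun m => N m \ T) hm)
        have h3 := card_sdiff_add_card_eq_card (hTN m)
        have h4 := hN m
        omega
  obtain ⟨s, hs, hsN⟩ := hex
  have hst : ∀ m i, s m ≠ t i := by
    intro m i h
    exact (mem_sdiff.mp (hsN m)).2 (h ▸ htT i)
  obtain ⟨l, hK, g, hg, π, hπ⟩ := sperner_weights (by omega) hH htinj (M := 1) one_pos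
    (fun m => wN {s m}) (by
      intro m i
      rw [wN_sum, wN, if_neg (by simpa using (hst m i).symm)]
      simp)
  have hl : l ≠ [] := List.ne_nil_of_mem (hg ⟨0, by omega⟩)
  have hpos : ∀ m, 0 < xv t 1 (g m) (s m) (π m) := by
    intro m
    by_contra hcon
    have h0 : ∀ i, xv t 1 (g m) (s m) i = 0 := by
      intro i
      have := hπ m i
      rw [val_wN, val_wN, sum_singleton, sum_singleton] at this
      omega
    have := xv_sum htinj hK (hg m) (s m)
    rw [sum_congr rfl fun i _ => h0 i] at this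
    simp at this
  have hsup : ∀ m, Sup l (π m) (s m) := by
    intro m
    have := hpos m
    rw [xv, if_pos (mem_WW.mpr (hst m))] at this
    exact ⟨g m, hg m, by omega⟩
  refine round one_pos hl hK htinj N π ?_
  intro Z
  have h1 : ∀ m ∈ Z, 2 - (N m ∩ Cor H t 1 l (π m)).card ≤
      if Sft H t 1 l (s m) then 1 else 0 := by
    intro m _
    have h11 : t (π m) ∈ N m ∩ Cor H t 1 l (π m) :=
      mem_inter.mpr ⟨hTN m (htT _), mem_Cor.mpr (Or.inl rfl)⟩
    split_ifs with hsft
    · have : 0 < (N m ∩ Cor H t 1 l (π m)).card := card_pos.mpr ⟨_, h11⟩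
      omega
    · have hsld : ∃ i, Sld H t 1 l i (s m) := by
        by_contra hcon
        push Not at hcon
        exact hsft ⟨mem_WW.mpr (hst m), hcon⟩
      obtain ⟨i, hi⟩ := hsld
      obtain ⟨g', hg', hlt⟩ := hsup m
      rw [hi.sol g' hg'] at hlt
      have hii : (π m : ℕ) = i := Sol_supp hlt
      have h12 : s m ∈ N m ∩ Cor H t 1 l (π m) :=
        mem_inter.mpr ⟨(mem_sdiff.mp (hsN m)).1, mem_Cor.mpr (Or.inr (hii ▸ hi))⟩
      have : 1 < (N m ∩ Cor H t 1 l (π m)).card :=
        one_lt_card.mpr ⟨_, h11, _, h12, (hst m _).symm⟩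
      omega
  refine (sum_le_sum h1).trans ?_
  rw [← card_filter]
  have h2 : ((Z.filter fun m => Sft H t 1 l (s m)).image s).card =
      (Z.filter fun m => Sft H t 1 l (s m)).card := card_image_of_injective _ hs
  rw [← h2]
  refine card_le_card ?_
  intro u hu
  obtain ⟨m, hm, rfl⟩ := mem_image.mp hu
  rw [mem_filter] at hm
  rw [mem_biUnion]
  exact ⟨m, hm.1, mem_DD.mpr ⟨(mem_sdiff.mp (hsN m)).1, hm.2, hsup m⟩⟩

/-- Case where the roots contain all common elements. -/
lemma case_few {H : SimpleGraph V} (hk : 2 ≤ k) (hH : Rob H k) (N : Fin k → Finset V)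
    (hN : ∀ m, 2 * k ≤ (N m).card + 1)
    (T : Finset V) (hT : T.card = k) (hC : ∀ u, (∀ m, u ∈ N m) → u ∈ T) : Concl H N := by
  classical
  by_contra hno
  set t : Fin k → V := fun i => ((T.equivFinOfCardEq hT).symm i : V) with ht
  have htinj : Function.Injective t := fun i j h =>
    (T.equivFinOfCardEq hT).symm.injective (Subtype.ext h)
  have hTt : ∀ u ∈ T, ∃ i, u = t i := by
    intro u hu
    exact ⟨T.equivFinOfCardEq hT ⟨u, hu⟩, by simp [ht]⟩
  set n := Fintype.card V with hn
  set E := 2 * k ^ 3 * n with hE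
  set M := k * E + 1 with hMdef
  have hM : 0 < M := by omega
  obtain ⟨l, hK, g, hg, π, hπ⟩ := sperner_weights (by omega) hH htinj hM
    (fun m => wN (N m)) (by
      intro m i
      rw [wN_sum, wN]
      have := hN m
      split_ifs <;> omega)
  set m0 : Fin k := ⟨0, by omega⟩ with hm0
  set g0 := g m0 with hg0def
  have hg0 : g0 ∈ l := hg m0
  have hl : l ≠ [] := List.ne_nil_of_mem hg0
  -- violating sets
  have hviol : ∀ π' : Equiv.Perm (Fin k), ∃ Z : Finset (Fin k),
      ∑ m ∈ Z, (N m ∩ Cor H t M l (π' m)).card +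
      (Z.biUnion fun m => DD H t M l (N m) (π' m)).card + 1 ≤ 2 * Z.card := by
    intro π'
    refine exists_viol (D := fun m => DD H t M l (N m) (π' m))
      (d := fun m => (N m ∩ Cor H t M l (π' m)).card) ?_
    intro hall
    exact hno (round hM hl hK htinj N π' hall)
  -- sums of values
  have hsum : ∀ m, ∀ g' ∈ l, ∑ i, val t M (wN (N m)) g' i = M * (N m).card := by
    intro m g' hg'
    rw [val_sum htinj hK hg', wN_sum]
  have hxs : ∀ (π' : Equiv.Perm (Fin k)), ∀ g' ∈ l, ∀ u, ∑ m, xv t M g' u (π' m) = M := by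
    intro π' g' hg' u
    exact (Equiv.sum_comp π' (fun i => xv t M g' u i)).trans (xv_sum htinj hK hg' u)
  -- own values
  set a : Fin k → ℕ := fun m => val t M (wN (N m)) (g m) (π m) with ha
  have hka : ∀ m, M * (N m).card ≤ k * a m := by
    intro m
    rw [← hsum m (g m) (hg m)]
    refine (sum_le_sum fun i _ => hπ m i).trans ?_
    rw [sum_const, card_univ, Fintype.card_fin, smul_eq_mul]
  have hka' : ∀ m, M * (2 * k) ≤ k * a m + M := by
    intro m
    have h1 := Nat.mul_le_mul_left M (hN m)
    have h2 := hka m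
    have h3 : M * ((N m).card + 1) = M * (N m).card + M := by ring
    omega
  have hclose : ∀ u, ∑ m, xv t M (g m) u (π m) ≤ M + 2 * k := by
    intro u
    calc ∑ m, xv t M (g m) u (π m) ≤ ∑ m, (xv t M g0 u (π m) + 2) :=
          sum_le_sum fun m _ => xv_close hK (hg m) hg0 u _
      _ = M + 2 * k := by
          rw [sum_add_distrib, hxs π g0 hg0 u, sum_const, card_univ, Fintype.card_fin,
            smul_eq_mul, mul_comm k 2]
  have hkE : 2 * k ^ 2 * n ≤ E := by
    rw [hE]
    have : 2 * k ^ 3 * n = 2 * k ^ 2 * n * k := by ring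
    rw [this]
    exact Nat.le_mul_of_pos_right _ (by omega)
  have hEM : E < M := by
    have : E ≤ k * E := Nat.le_mul_of_pos_left _ (by omega)
    omega
  -- the violating set for `π` is everything
  have hstep1 : ∑ m, a m + M ≤ M * (2 * k) + 2 * k * n := by
    obtain ⟨Z, hZ⟩ := hviol π
    have h1 := viol_upper N π g hg (2 * k) hclose Z hZ
    have h2 : ∑ m ∈ Z, (M * (2 * k)) ≤ ∑ m ∈ Z, (k * a m + M) := sum_le_sum fun m _ => hka' m
    rw [sum_const, smul_eq_mul, sum_add_distrib, sum_const, smul_eq_mul, ← mul_sum] at h2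
    have h3 : k * (∑ m ∈ Z, a m + M) ≤ k * (M * (2 * Z.card) + 2 * k * n) :=
      Nat.mul_le_mul_left _ h1
    have hZk : Z.card ≤ k := by simpa using card_le_univ Z
    have hZeq : Z.card = k := by
      by_contra hne
      have hlt : Z.card + 1 ≤ k := by omega
      have h4 : M * (Z.card + 1) ≤ M * k := Nat.mul_le_mul_left _ hlt
      have e1 : k * (∑ m ∈ Z, a m + M) = k * ∑ m ∈ Z, a m + M * k := by ring
      have e2 : k * (M * (2 * Z.card) + 2 * k * n) = Z.card * (M * (2 * k)) + 2 * k ^ 2 * n := by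
        ring
      have e3 : M * (Z.card + 1) = Z.card * M + M := by ring
      omega
    have hZu : Z = univ := by
      rw [← card_eq_iff_eq_univ, hZeq, Fintype.card_fin]
    rw [hZu, card_univ, Fintype.card_fin] at h1
    exact h1
  have hstep2 : ∀ m, k * a m + M ≤ M * (2 * k) + 2 * k ^ 2 * n := by
    intro m
    have h1 : ∑ m' ∈ univ.erase m, (M * (2 * k)) ≤ ∑ m' ∈ univ.erase m, (k * a m' + M) :=
      sum_le_sum fun m' _ => hka' m'
    have hcard : (univ.erase m : Finset (Fin k)).card = k - 1 := by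
      rw [card_erase_of_mem (mem_univ _), card_univ, Fintype.card_fin]
    rw [sum_const, smul_eq_mul, sum_add_distrib, sum_const, smul_eq_mul, ← mul_sum, hcard] at h1
    have h2 : a m + ∑ m' ∈ univ.erase m, a m' = ∑ m', a m' := add_sum_erase _ _ (mem_univ _)
    have h3 : k * (∑ m, a m + M) ≤ k * (M * (2 * k) + 2 * k * n) := Nat.mul_le_mul_left _ hstep1
    rw [← h2] at h3
    obtain ⟨k', rfl⟩ : ∃ k', k = k' + 1 := ⟨k - 1, by omega⟩
    rw [Nat.add_sub_cancel] at h1
    have e1 : (k' + 1) * (a m + ∑ m' ∈ univ.erase m, a m' + M) =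
      (k' + 1) * a m + (k' + 1) * ∑ m' ∈ univ.erase m, a m' + k' * M + M := by ring
    have e2 : (k' + 1) * (M * (2 * (k' + 1)) + 2 * (k' + 1) * n) =
      k' * (M * (2 * (k' + 1))) + M * (2 * (k' + 1)) + 2 * (k' + 1) ^ 2 * n := by ring
    omega
  have hNc : ∀ m, (N m).card + 1 = 2 * k := by
    intro m
    have h1 := hka m
    have h2 := hstep2 m
    have h3 := hN m
    by_contra hne
    have h4 : 2 * k ≤ (N m).card := by omega
    have h5 : M * (2 * k) ≤ M * (N m).card := Nat.mul_le_mul_left _ h4
    omega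
  -- all values are large
  have hstep3 : ∀ m i, M * (2 * k) + 2 * k ^ 2 * n ≤
      k * val t M (wN (N m)) (g m) i + M + k * (2 * k ^ 2 * n) := by
    intro m i
    have hcard : (univ.erase i : Finset (Fin k)).card = k - 1 := by
      rw [card_erase_of_mem (mem_univ _), card_univ, Fintype.card_fin]
    have h1 : ∑ j ∈ univ.erase i, (k * val t M (wN (N m)) (g m) j + M) ≤
        ∑ j ∈ univ.erase i, (M * (2 * k) + 2 * k ^ 2 * n) := by
      refine sum_le_sum fun j _ => ?_
      have h11 := Nat.mul_le_mul_left k (hπ m j)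
      have h12 := hstep2 m
      have h13 : k * a m = k * val t M (wN (N m)) (g m) (π m) := rfl
      omega
    rw [sum_const, smul_eq_mul, sum_add_distrib, sum_const, smul_eq_mul, ← mul_sum, hcard] at h1
    have h2 : val t M (wN (N m)) (g m) i + ∑ j ∈ univ.erase i, val t M (wN (N m)) (g m) j =
        M * (N m).card := by
      rw [← hsum m (g m) (hg m)]
      exact add_sum_erase _ _ (mem_univ _)
    have h3 : k * (val t M (wN (N m)) (g m) i + ∑ j ∈ univ.erase i, val t M (wN (N m)) (g m) j)
        + k * M = k * (M * (2 * k)) := by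
      rw [h2, ← hNc m]; ring
    obtain ⟨k', rfl⟩ : ∃ k', k = k' + 1 := ⟨k - 1, by omega⟩
    rw [Nat.add_sub_cancel] at h1
    have e1 : (k' + 1) * (val t M (wN (N m)) (g m) i +
      ∑ j ∈ univ.erase i, val t M (wN (N m)) (g m) j) + (k' + 1) * M =
      (k' + 1) * val t M (wN (N m)) (g m) i +
      (k' + 1) * ∑ j ∈ univ.erase i, val t M (wN (N m)) (g m) j + k' * M + M := by ring
    have e2 : (k' + 1) * (M * (2 * (k' + 1))) =
      k' * (M * (2 * (k' + 1))) + M * (2 * (k' + 1)) := by ring
    have e3 : k' * (M * (2 * (k' + 1)) + 2 * (k' + 1) ^ 2 * n) =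
      k' * (M * (2 * (k' + 1))) + k' * (2 * (k' + 1) ^ 2 * n) := by ring
    have e4 : (k' + 1) * (2 * (k' + 1) ^ 2 * n) =
      k' * (2 * (k' + 1) ^ 2 * n) + 2 * (k' + 1) ^ 2 * n := by ring
    omega
  have hstep4 : ∀ m i, M * (2 * k) ≤ k * val t M (wN (N m)) g0 i + M + E := by
    intro m i
    have h1 := hstep3 m i
    have h2 : val t M (wN (N m)) (g m) i ≤ val t M (wN (N m)) g0 i + 2 * n := by
      rw [val_wN, val_wN]
      calc ∑ u ∈ N m, xv t M (g m) u i ≤ ∑ u ∈ N m, (xv t M g0 u i + 2) :=
            sum_le_sum fun u _ => xv_close hK (hg m) hg0 u _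
        _ = ∑ u ∈ N m, xv t M g0 u i + 2 * (N m).card := by
            rw [sum_add_distrib, sum_const, smul_eq_mul, mul_comm (N m).card 2]
        _ ≤ _ := by
            have := card_le_univ (N m)
            omega
    have h3 := Nat.mul_le_mul_left k h2
    have e1 : k * (val t M (wN (N m)) g0 i + 2 * n) =
      k * val t M (wN (N m)) g0 i + 2 * k * n := by ring
    have e2 : k * (2 * k ^ 2 * n) = E := by rw [hE]; ring
    have e3 : 2 * k * n ≤ 2 * k ^ 2 * n := by
      have : 2 * k ^ 2 * n = 2 * k * n * k := by ring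
      rw [this]
      exact Nat.le_mul_of_pos_right _ (by omega)
    omega
  -- small losses for every assignment
  have hstep5 : ∀ π' : Equiv.Perm (Fin k),
      ∑ u ∈ univ.biUnion (fun m => DD H t M l (N m) (π' m)), loss t M N π' g0 u ≤ E := by
    intro π'
    obtain ⟨Z, hZ⟩ := hviol π'
    have h1 := viol_upper N π' (fun _ => g0) (fun _ => hg0) 0
      (fun u => by rw [hxs π' g0 hg0 u, add_zero]) Z hZ
    have h2 : ∑ m ∈ Z, (M * (2 * k)) ≤
        ∑ m ∈ Z, (k * val t M (wN (N m)) g0 (π' m) + M + E) :=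
      sum_le_sum fun m _ => hstep4 m _
    rw [sum_const, smul_eq_mul, sum_add_distrib, sum_add_distrib, sum_const, sum_const,
      smul_eq_mul, smul_eq_mul, ← mul_sum] at h2
    have h3 := Nat.mul_le_mul_left k h1
    have hZk : Z.card ≤ k := by simpa using card_le_univ Z
    have hZE : Z.card * E ≤ k * E := Nat.mul_le_mul_right _ hZk
    have hZeq : Z.card = k := by
      by_contra hne
      have hlt : Z.card + 1 ≤ k := by omega
      have h4 : M * (Z.card + 1) ≤ M * k := Nat.mul_le_mul_left _ hlt
      have e1 : k * (∑ m ∈ Z, val t M (wN (N m)) g0 (π' m) + M) =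
        k * ∑ m ∈ Z, val t M (wN (N m)) g0 (π' m) + M * k := by ring
      have e2 : k * (M * (2 * Z.card) + 0 * Fintype.card V) = Z.card * (M * (2 * k)) := by ring
      have e3 : M * (Z.card + 1) = Z.card * M + M := by ring
      omega
    have hZu : Z = univ := by
      rw [← card_eq_iff_eq_univ, hZeq, Fintype.card_fin]
    subst hZu
    rw [card_univ, Fintype.card_fin] at hZ h2
    have h4 := viol_loss N π' g0 hg0 (hxs π' g0 hg0) hZ
    have h5 := Nat.mul_le_mul_left k h4
    have e1 : k * (∑ m, val t M (wN (N m)) g0 (π' m) + M +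
      ∑ u ∈ univ.biUnion (fun m => DD H t M l (N m) (π' m)), loss t M N π' g0 u) =
      k * ∑ m, val t M (wN (N m)) g0 (π' m) + k * M +
      k * ∑ u ∈ univ.biUnion (fun m => DD H t M l (N m) (π' m)), loss t M N π' g0 u := by ring
    have e2 : k * (M * (2 * k)) = k * (M * (2 * k)) := rfl
    have h6 : k * ∑ u ∈ univ.biUnion (fun m => DD H t M l (N m) (π' m)), loss t M N π' g0 u ≤
        k * E := by omega
    exact Nat.le_of_mul_le_mul_left h6 (by omega)
  -- soft elements are common
  have hcommon : ∀ u m, u ∈ N m → Sft H t M l u → ∀ m', u ∈ N m' := by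
    intro u m hum hsft m'
    by_contra hum'
    have hmm : m ≠ m' := by rintro rfl; exact hum' hum
    obtain ⟨i, i', hii, hi, hi'⟩ := hsft.two hM hl hK
    have hsmall : ∀ b : Fin k, Sup l b u → ∀ j, j ≠ b → xv t M g0 u j ≤ E := by
      intro b hb j hj
      obtain ⟨π', h1, h2⟩ := exists_perm_two hmm hj.symm
      refine le_trans ?_ (hstep5 π')
      have hu : u ∈ univ.biUnion (fun m => DD H t M l (N m) (π' m)) := by
        rw [mem_biUnion]
        exact ⟨m, mem_univ _, mem_DD.mpr ⟨hum, hsft, by rw [h1]; exact hb⟩⟩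
      refine le_trans ?_ (single_le_sum (fun _ _ => Nat.zero_le _) hu)
      rw [loss]
      have h3 : (if u ∈ N m' then 0 else xv t M g0 u (π' m')) ≤
          ∑ m, if u ∈ N m then 0 else xv t M g0 u (π' m) :=
        single_le_sum (f := fun m => if u ∈ N m then 0 else xv t M g0 u (π' m))
          (fun _ _ => Nat.zero_le _) (mem_univ m')
      rw [if_neg hum', h2] at h3
      exact h3
    have hall : ∀ j, xv t M g0 u j ≤ E := by
      intro j
      by_cases hj : j = i
      · exact hsmall i' hi' j (by rw [hj]; exact hii)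
      · exact hsmall i hi j hj
    have h1 : ∑ j, xv t M g0 u j ≤ ∑ _j : Fin k, E := sum_le_sum fun j _ => hall j
    rw [xv_sum htinj hK hg0, sum_const, card_univ, Fintype.card_fin, smul_eq_mul] at h1
    omega
  -- no soft elements
  have hnosoft : ∀ u m, u ∈ N m → ¬ Sft H t M l u := by
    intro u m hum hsft
    obtain ⟨i, hi⟩ := hTt u (hC u (hcommon u m hum hsft))
    exact mem_WW.mp hsft.1 i hi
  have hbig : ∀ m i, 2 * M ≤ val t M (wN (N m)) g0 i := by
    intro m i
    have h1 : val t M (wN (N m)) g0 i = M * (N m ∩ Cor H t M l i).card := by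
      rw [val_own hg0]
      have : DD H t M l (N m) i = ∅ := by
        rw [eq_empty_iff_forall_notMem]
        intro u hu
        exact hnosoft u m (mem_DD.mp hu).1 (mem_DD.mp hu).2.1
      rw [this, sum_empty, add_zero]
    have h2 := hstep4 m i
    rw [h1] at h2 ⊢
    by_contra hlt
    push Not at hlt
    have h3 : (N m ∩ Cor H t M l i).card ≤ 1 := by
      by_contra h
      have : 2 ≤ (N m ∩ Cor H t M l i).card := by omega
      have := Nat.mul_le_mul_left M this
      omega
    have h4 : k * (M * (N m ∩ Cor H t M l i).card) ≤ k * (M * 1) :=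
      Nat.mul_le_mul_left _ (Nat.mul_le_mul_left _ h3)
    have h5 : M * (k + 2) ≤ M * (2 * k) := Nat.mul_le_mul_left _ (by omega)
    have e1 : M * (k + 2) = k * (M * 1) + 2 * M := by ring
    omega
  have h1 : ∑ _i : Fin k, 2 * M ≤ ∑ i, val t M (wN (N m0)) g0 i :=
    sum_le_sum fun i _ => hbig m0 i
  rw [sum_const, card_univ, Fintype.card_fin, smul_eq_mul, hsum m0 g0 hg0] at h1
  have h2 : M * ((N m0).card + 1) = M * (2 * k) := by rw [hNc m0]
  have e1 : M * ((N m0).card + 1) = M * (N m0).card + M := by ring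
  have e2 : M * (2 * k) = k * (2 * M) := by ring
  omega

/-- Disjoint connected sets, the `m`-th of which has two elements of `N m`. -/
theorem exists_parts {H : SimpleGraph V} (hk : 2 ≤ k) (hH : Rob H k) (N : Fin k → Finset V)
    (hN : ∀ m, 2 * k ≤ (N m).card + 1) (hU : 2 * k ≤ (univ.biUnion N).card) : Concl H N := by
  classical
  set C : Finset V := univ.filter (fun u => ∀ m, u ∈ N m) with hC
  rcases le_or_gt k C.card with hCk | hCk
  · obtain ⟨T, hTC, hT⟩ := exists_subset_card_eq hCk
    exact case_common hk hH N hN hU T hT fun m u hu => (mem_filter.mp (hTC hu)).2 m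
  · have hV : k ≤ Fintype.card V := by
      have h1 := hN ⟨0, by omega⟩
      have h2 := card_le_univ (N ⟨0, by omega⟩)
      omega
    obtain ⟨T, hCT, hT⟩ := exists_superset_card_eq hCk.le hV
    exact case_few hk hH N hN T hT fun u hu => hCT (mem_filter.mpr ⟨mem_univ _, hu⟩)

end Pool.Agent.Helper35.DC
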