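import Mathlib
import Pool.Agent.Helper35.DC.Defs
import Pool.Agent.Helper35.DC.LowerPart

/-!
# Connectivity `3k - 2` forces disjoint cycles through `k` specified vertices

For `k ≥ 2` every `(3k-2)`-connected graph with at least `3k` vertices has property `S_k`; hence
`2k ≤ f(k) ≤ 3k - 2`, and `f(2) = 4`.
-/

set_option autoImplicit false

open Pool.Agent.Helper35.DC

namespace Pool.Agent.Helper35.DC.UpperThreeKMinusTwo

/-- For `k ≥ 2`, every `(3k-2)`-connected graph with at least `3k` vertices has property `S_k`.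
Hence `f(k)` is finite and `2k ≤ f(k) ≤ 3k - 2`. -/
theorem result (k : ℕ) (hk : 2 ≤ k) :
    (∀ (V : Type) [Fintype V] [DecidableEq V] (G : SimpleGraph V),
      IsConn G (3 * k - 2) → 3 * k ≤ Fintype.card V → PropS G k) ∧
    ∃ c, IsF k c ∧ 2 * k ≤ c ∧ c ≤ 3 * k - 2 :=
  ⟨fun _ _ _ _ h hV => propS_of_conn hk h hV, f_bounds hk⟩

end Pool.Agent.Helper35.DC.UpperThreeKMinusTwo
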